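import Mathlib

/-!
# EHP, block E1': the functions `H`, `Psi`, `q` built from a test function `F (l, g)`

`F` is `C^3` on `{g > 0}` (named partial derivatives, structure `FData`), `e > 0`.

* `H l g = ∫_e^g F_g(l,t)^2 dt`, `Hl l g = ∫_e^g 2 F_g F_gl dt`, `W = 2 F_l F_g - Hl`,
  `Psi l g = ∫_e^g W(l,t) dt`,
* `q l g = F_l(l,e)^2 - 2 F_g(l,e) F_ll(l,e) (g - e) + 2 ∫_e^g (g-t) (F_lg^2 - F_ll F_gg)(l,t) dt`.

Results: `H`, `Psi` are jointly differentiable on `{g > 0}` with `H_l = Hl`, `H_g = F_g^2`, `Psi_g = W`,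
`Psi_l = F_l^2 - q`; everything is continuous on `{g > 0}`.
-/

set_option autoImplicit false

open MeasureTheory Set Filter Topology intervalIntegral

noncomputable section

namespace Pool.Agent.H15.EH

/-- the domain `g > 0` -/
def U : Set (ℝ × ℝ) := {x | 0 < x.2}

theorem isOpen_U : IsOpen U := isOpen_lt continuous_const continuous_snd

/-- `F` is `C^3` on `{g > 0}` as far as we need it, with named partial derivatives -/
structure FData (F Fl Fg Fll Flg Fgg Fllg : ℝ → ℝ → ℝ) : Prop where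
  dl : ∀ l g, 0 < g → HasDerivAt (fun x => F x g) (Fl l g) l
  dg : ∀ l g, 0 < g → HasDerivAt (F l) (Fg l g) g
  dll : ∀ l g, 0 < g → HasDerivAt (fun x => Fl x g) (Fll l g) l
  dlg : ∀ l g, 0 < g → HasDerivAt (Fl l) (Flg l g) g
  dgl : ∀ l g, 0 < g → HasDerivAt (fun x => Fg x g) (Flg l g) l
  dgg : ∀ l g, 0 < g → HasDerivAt (Fg l) (Fgg l g) g
  dllg : ∀ l g, 0 < g → HasDerivAt (Fll l) (Fllg l g) g
  dlgl : ∀ l g, 0 < g → HasDerivAt (fun x => Flg x g) (Fllg l g) l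
  cl : ContinuousOn (fun x : ℝ × ℝ => Fl x.1 x.2) U
  cg : ContinuousOn (fun x : ℝ × ℝ => Fg x.1 x.2) U
  cll : ContinuousOn (fun x : ℝ × ℝ => Fll x.1 x.2) U
  clg : ContinuousOn (fun x : ℝ × ℝ => Flg x.1 x.2) U
  cgg : ContinuousOn (fun x : ℝ × ℝ => Fgg x.1 x.2) U
  cllg : ContinuousOn (fun x : ℝ × ℝ => Fllg x.1 x.2) U

/-- extension of a function on `g > 0` to a globally continuous one -/
theorem cont_max {f : ℝ → ℝ → ℝ} (hf : ContinuousOn (fun x : ℝ × ℝ => f x.1 x.2) U) {δ : ℝ}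
    (hδ : 0 < δ) : Continuous (fun x : ℝ × ℝ => f x.1 (max x.2 δ)) := by
  have h1 : Continuous (fun x : ℝ × ℝ => ((x.1, max x.2 δ) : ℝ × ℝ)) := by fun_prop
  exact hf.comp_continuous h1 (fun x => lt_of_lt_of_le hδ (le_max_right _ _))

theorem cont_slice {f : ℝ → ℝ → ℝ} (hf : ContinuousOn (fun x : ℝ × ℝ => f x.1 x.2) U) (l : ℝ) :
    ContinuousOn (f l) (Ioi 0) := by
  have h1 : ContinuousOn (fun t : ℝ => ((l, t) : ℝ × ℝ)) (Ioi 0) := by fun_prop
  exact hf.comp h1 (fun t ht => ht)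

theorem uIcc_pos {e g : ℝ} (he : 0 < e) (hg : 0 < g) : uIcc e g ⊆ Ioi 0 := by
  intro t ht
  have := ht.1
  exact lt_of_lt_of_le (lt_min he hg) this

theorem intable {f : ℝ → ℝ → ℝ} (hf : ContinuousOn (fun x : ℝ × ℝ => f x.1 x.2) U) (l : ℝ)
    {e g : ℝ} (he : 0 < e) (hg : 0 < g) : IntervalIntegrable (f l) volume e g :=
  ((cont_slice hf l).mono (uIcc_pos he hg)).intervalIntegrable

/-- continuity of the parametric primitive -/
theorem cont_prim {f : ℝ → ℝ → ℝ} (hf : ContinuousOn (fun x : ℝ × ℝ => f x.1 x.2) U)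
    {e : ℝ} (he : 0 < e) : ContinuousOn (fun x : ℝ × ℝ => ∫ t in e..x.2, f x.1 t) U := by
  intro x0 hx0
  have hx0' : 0 < x0.2 := hx0
  refine ContinuousAt.continuousWithinAt ?_
  obtain ⟨δ, hδ0, hδe, hδx⟩ : ∃ δ : ℝ, 0 < δ ∧ δ < e ∧ δ < x0.2 := by
    obtain ⟨δ, h1, h2⟩ := exists_between (lt_min he hx0')
    exact ⟨δ, h1, lt_of_lt_of_le h2 (min_le_left _ _), lt_of_lt_of_le h2 (min_le_right _ _)⟩
  have hc := cont_max hf hδ0
  have h1 : Continuous (fun x : ℝ × ℝ => ∫ t in e..x.2, f x.1 (max t δ)) := by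
    apply intervalIntegral.continuous_parametric_intervalIntegral_of_continuous
    · exact hc.comp (by fun_prop : Continuous (fun y : (ℝ × ℝ) × ℝ => ((y.1.1, y.2) : ℝ × ℝ)))
    · exact continuous_snd
  refine h1.continuousAt.congr ?_
  have h2 : ∀ᶠ x : ℝ × ℝ in 𝓝 x0, δ < x.2 :=
    (continuous_snd.tendsto x0).eventually (lt_mem_nhds hδx)
  filter_upwards [h2] with x hx
  refine intervalIntegral.integral_congr fun t ht => ?_
  have h3 : δ ≤ t := le_trans (le_min hδe.le hx.le) ht.1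
  simp only [max_eq_left h3]

/-- derivative of the parametric primitive in the upper limit -/
theorem hasDerivAt_prim_right {f : ℝ → ℝ → ℝ}
    (hf : ContinuousOn (fun x : ℝ × ℝ => f x.1 x.2) U) (l : ℝ) {e g : ℝ} (he : 0 < e)
    (hg : 0 < g) : HasDerivAt (fun y => ∫ t in e..y, f l t) (f l g) g := by
  have hs := cont_slice hf l
  have hat : ContinuousAt (f l) g := hs.continuousAt (Ioi_mem_nhds hg)
  exact intervalIntegral.integral_hasDerivAt_right (intable hf l he hg)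
    (hs.stronglyMeasurableAtFilter isOpen_Ioi g hg) hat

/-- derivative of the parametric integral in the parameter -/
theorem hasDerivAt_prim_left {f f' : ℝ → ℝ → ℝ}
    (hf : ContinuousOn (fun x : ℝ × ℝ => f x.1 x.2) U)
    (hf' : ContinuousOn (fun x : ℝ × ℝ => f' x.1 x.2) U)
    (hd : ∀ l t, 0 < t → HasDerivAt (fun x => f x t) (f' l t) l) (l : ℝ) {e g : ℝ} (he : 0 < e)
    (hg : 0 < g) :
    HasDerivAt (fun x => ∫ t in e..g, f x t) (∫ t in e..g, f' l t) l := by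
  have hK : IsCompact (Icc (l - 1) (l + 1) ×ˢ uIcc e g) := isCompact_Icc.prod isCompact_uIcc
  obtain ⟨C, hC⟩ := hK.exists_bound_of_continuousOn
    (hf'.mono (fun x hx => uIcc_pos he hg hx.2))
  have h := intervalIntegral.hasDerivAt_integral_of_dominated_loc_of_deriv_le
    (μ := volume) (a := e) (b := g) (F := f) (F' := f') (x₀ := l) (s := Ioo (l - 1) (l + 1))
    (bound := fun _ => C)
    (Ioo_mem_nhds (by linarith) (by linarith)) ?_ (intable hf l he hg) ?_ ?_ ?_ ?_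
  · exact h.2
  · refine Filter.Eventually.of_forall fun x => ?_
    exact (intable hf x he hg).def'.aestronglyMeasurable
  · exact (intable hf' l he hg).def'.aestronglyMeasurable
  · refine Filter.Eventually.of_forall fun t ht x hx => ?_
    have h1 := hC (x, t) ⟨⟨hx.1.le, hx.2.le⟩, uIoc_subset_uIcc ht⟩
    exact h1
  · exact intervalIntegrable_const
  · refine Filter.Eventually.of_forall fun t ht x _ => ?_
    exact hd x t (uIcc_pos he hg (uIoc_subset_uIcc ht))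

section
variable (Fl Fg Fll Flg Fgg Fllg : ℝ → ℝ → ℝ) (e : ℝ)

/-- `H l g = ∫_e^g F_g^2` -/
def H (l g : ℝ) : ℝ := ∫ t in e..g, Fg l t ^ 2

/-- `Hl l g = ∫_e^g 2 F_g F_gl` -/
def Hl (l g : ℝ) : ℝ := ∫ t in e..g, 2 * Fg l t * Flg l t

/-- `W = 2 F_l F_g - H_l` -/
def W (l g : ℝ) : ℝ := 2 * Fl l g * Fg l g - Hl Fg Flg e l g

/-- `Psi l g = ∫_e^g W` -/
def Psi (l g : ℝ) : ℝ := ∫ t in e..g, W Fl Fg Flg e l t

/-- `det l t = F_lg^2 - F_ll F_gg = - det Hess F` -/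
def D (l t : ℝ) : ℝ := Flg l t ^ 2 - Fll l t * Fgg l t

/-- the reduced energy density -/
def q (l g : ℝ) : ℝ :=
  Fl l e ^ 2 - 2 * Fg l e * Fll l e * (g - e) + 2 * ∫ t in e..g, (g - t) * D Fll Flg Fgg l t

end

variable {F Fl Fg Fll Flg Fgg Fllg : ℝ → ℝ → ℝ} {e : ℝ}

theorem FData.cont_Fg2 (h : FData F Fl Fg Fll Flg Fgg Fllg) :
    ContinuousOn (fun x : ℝ × ℝ => Fg x.1 x.2 ^ 2) U := h.cg.pow 2

theorem FData.cont_FgFlg (h : FData F Fl Fg Fll Flg Fgg Fllg) :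
    ContinuousOn (fun x : ℝ × ℝ => 2 * Fg x.1 x.2 * Flg x.1 x.2) U :=
  (continuousOn_const.mul h.cg).mul h.clg

theorem FData.cont_D (h : FData F Fl Fg Fll Flg Fgg Fllg) :
    ContinuousOn (fun x : ℝ × ℝ => D Fll Flg Fgg x.1 x.2) U :=
  (h.clg.pow 2).sub (h.cll.mul h.cgg)

theorem FData.cont_H (h : FData F Fl Fg Fll Flg Fgg Fllg) (he : 0 < e) :
    ContinuousOn (fun x : ℝ × ℝ => H Fg e x.1 x.2) U :=
  cont_prim (f := fun l t => Fg l t ^ 2) h.cont_Fg2 he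

theorem FData.cont_Hl (h : FData F Fl Fg Fll Flg Fgg Fllg) (he : 0 < e) :
    ContinuousOn (fun x : ℝ × ℝ => Hl Fg Flg e x.1 x.2) U :=
  cont_prim (f := fun l t => 2 * Fg l t * Flg l t) h.cont_FgFlg he

theorem FData.cont_W (h : FData F Fl Fg Fll Flg Fgg Fllg) (he : 0 < e) :
    ContinuousOn (fun x : ℝ × ℝ => W Fl Fg Flg e x.1 x.2) U :=
  ((continuousOn_const.mul h.cl).mul h.cg).sub (h.cont_Hl he)

theorem FData.cont_Psi (h : FData F Fl Fg Fll Flg Fgg Fllg) (he : 0 < e) :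
    ContinuousOn (fun x : ℝ × ℝ => Psi Fl Fg Flg e x.1 x.2) U :=
  cont_prim (f := fun l t => W Fl Fg Flg e l t) (h.cont_W he) he

/-- `∂_g H = F_g^2` -/
theorem FData.H_g (h : FData F Fl Fg Fll Flg Fgg Fllg) (he : 0 < e) (l : ℝ) {g : ℝ}
    (hg : 0 < g) : HasDerivAt (H Fg e l) (Fg l g ^ 2) g :=
  hasDerivAt_prim_right (f := fun l t => Fg l t ^ 2) h.cont_Fg2 l he hg

/-- `∂_l H = Hl` -/
theorem FData.H_l (h : FData F Fl Fg Fll Flg Fgg Fllg) (he : 0 < e) (l : ℝ) {g : ℝ}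
    (hg : 0 < g) : HasDerivAt (fun x => H Fg e x g) (Hl Fg Flg e l g) l := by
  refine hasDerivAt_prim_left (f := fun l t => Fg l t ^ 2)
    (f' := fun l t => 2 * Fg l t * Flg l t) h.cont_Fg2 h.cont_FgFlg ?_ l he hg
  intro l t ht
  have h1 := (h.dgl l t ht).fun_pow 2
  simpa using h1

/-- `∂_g Psi = W` -/
theorem FData.Psi_g (h : FData F Fl Fg Fll Flg Fgg Fllg) (he : 0 < e) (l : ℝ) {g : ℝ}
    (hg : 0 < g) : HasDerivAt (Psi Fl Fg Flg e l) (W Fl Fg Flg e l g) g :=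
  hasDerivAt_prim_right (f := fun l t => W Fl Fg Flg e l t) (h.cont_W he) l he hg

/-- `Hll l g = ∫_e^g 2 (F_lg^2 + F_g F_llg)` -/
def Hll (Fg Flg Fllg : ℝ → ℝ → ℝ) (e l g : ℝ) : ℝ :=
  ∫ t in e..g, 2 * (Flg l t ^ 2 + Fg l t * Fllg l t)

/-- `Wl = 2 F_ll F_g + 2 F_l F_lg - Hll` -/
def Wl (Fl Fg Fll Flg Fllg : ℝ → ℝ → ℝ) (e l g : ℝ) : ℝ :=
  2 * (Fll l g * Fg l g + Fl l g * Flg l g) - Hll Fg Flg Fllg e l g

theorem FData.cont_Hllint (h : FData F Fl Fg Fll Flg Fgg Fllg) :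
    ContinuousOn (fun x : ℝ × ℝ => 2 * (Flg x.1 x.2 ^ 2 + Fg x.1 x.2 * Fllg x.1 x.2)) U :=
  continuousOn_const.mul ((h.clg.pow 2).add (h.cg.mul h.cllg))

theorem FData.cont_Hll (h : FData F Fl Fg Fll Flg Fgg Fllg) (he : 0 < e) :
    ContinuousOn (fun x : ℝ × ℝ => Hll Fg Flg Fllg e x.1 x.2) U :=
  cont_prim (f := fun l t => 2 * (Flg l t ^ 2 + Fg l t * Fllg l t)) h.cont_Hllint he

theorem FData.cont_Wl (h : FData F Fl Fg Fll Flg Fgg Fllg) (he : 0 < e) :
    ContinuousOn (fun x : ℝ × ℝ => Wl Fl Fg Fll Flg Fllg e x.1 x.2) U :=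
  (continuousOn_const.mul ((h.cll.mul h.cg).add (h.cl.mul h.clg))).sub (h.cont_Hll he)

/-- `∂_l Hl = Hll` -/
theorem FData.Hl_l (h : FData F Fl Fg Fll Flg Fgg Fllg) (he : 0 < e) (l : ℝ) {g : ℝ}
    (hg : 0 < g) : HasDerivAt (fun x => Hl Fg Flg e x g) (Hll Fg Flg Fllg e l g) l := by
  refine hasDerivAt_prim_left (f := fun l t => 2 * Fg l t * Flg l t)
    (f' := fun l t => 2 * (Flg l t ^ 2 + Fg l t * Fllg l t)) h.cont_FgFlg h.cont_Hllint ?_ l he hg
  intro l t ht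
  have h1 := ((h.dgl l t ht).const_mul 2).fun_mul (h.dlgl l t ht)
  refine h1.congr_deriv ?_
  ring

/-- `∂_l W = Wl` -/
theorem FData.W_l (h : FData F Fl Fg Fll Flg Fgg Fllg) (he : 0 < e) (l : ℝ) {g : ℝ}
    (hg : 0 < g) : HasDerivAt (fun x => W Fl Fg Flg e x g) (Wl Fl Fg Fll Flg Fllg e l g) l := by
  have h1 := (((h.dll l g hg).const_mul 2).fun_mul (h.dgl l g hg)).fun_sub (h.Hl_l he l hg)
  refine h1.congr_deriv ?_
  unfold Wl
  ring

/-- `∂_l Psi = ∫ Wl` -/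
theorem FData.Psi_l0 (h : FData F Fl Fg Fll Flg Fgg Fllg) (he : 0 < e) (l : ℝ) {g : ℝ}
    (hg : 0 < g) :
    HasDerivAt (fun x => Psi Fl Fg Flg e x g) (∫ t in e..g, Wl Fl Fg Fll Flg Fllg e l t) l :=
  hasDerivAt_prim_left (f := fun l t => W Fl Fg Flg e l t)
    (f' := fun l t => Wl Fl Fg Fll Flg Fllg e l t) (h.cont_W he) (h.cont_Wl he)
    (fun l _ ht => h.W_l he l ht) l he hg

/-- `g ↦ ∫_e^g (g-t) d(t) dt` has derivative `∫_e^g d` -/
theorem hasDerivAt_conv {d : ℝ → ℝ → ℝ} (hd : ContinuousOn (fun x : ℝ × ℝ => d x.1 x.2) U)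
    (l : ℝ) {g : ℝ} (he : 0 < e) (hg : 0 < g) :
    HasDerivAt (fun y => ∫ t in e..y, (y - t) * d l t) (∫ t in e..g, d l t) g := by
  have hd2 : ContinuousOn (fun x : ℝ × ℝ => x.2 * d x.1 x.2) U :=
    continuousOn_snd.mul hd
  have h1 := hasDerivAt_prim_right (f := fun l t => d l t) hd l he hg
  have h2 := hasDerivAt_prim_right (f := fun l t => t * d l t) hd2 l he hg
  have h3 := ((hasDerivAt_id g).fun_mul h1).fun_sub h2
  have h4 : HasDerivAt (fun y => ∫ t in e..y, (y - t) * d l t)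
      (1 * (∫ t in e..g, d l t) + id g * d l g - g * d l g) g := by
    refine h3.congr_of_eventuallyEq ?_
    filter_upwards [Ioi_mem_nhds hg] with y hy
    have i1 := intable (f := fun l t => d l t) hd l he hy
    have i2 := intable (f := fun l t => t * d l t) hd2 l he hy
    rw [← intervalIntegral.integral_const_mul (id y), ← intervalIntegral.integral_sub
      (i1.const_mul _) i2]
    refine intervalIntegral.integral_congr fun t _ => ?_
    simp only [id]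
    ring
  refine h4.congr_deriv ?_
  simp only [id]
  ring

/-- `∂_g q` -/
def qg (Fg Fll Flg Fgg : ℝ → ℝ → ℝ) (e l g : ℝ) : ℝ :=
  - 2 * Fg l e * Fll l e + 2 * ∫ t in e..g, D Fll Flg Fgg l t

theorem FData.q_g (h : FData F Fl Fg Fll Flg Fgg Fllg) (he : 0 < e) (l : ℝ) {g : ℝ}
    (hg : 0 < g) : HasDerivAt (q Fl Fg Fll Flg Fgg e l) (qg Fg Fll Flg Fgg e l g) g := by
  have h1 := (hasDerivAt_conv (e := e) (d := fun l t => D Fll Flg Fgg l t) h.cont_D l he hg).const_mul 2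
  have h2 := (((hasDerivAt_id g).sub_const e).const_mul (2 * Fg l e * Fll l e)).const_sub
    (Fl l e ^ 2)
  have h3 := h2.fun_add h1
  refine h3.congr_deriv ?_
  unfold qg
  ring

/-- the key identity `W_l = ∂_g (F_l^2 - q)` -/
theorem FData.Wl_eq (h : FData F Fl Fg Fll Flg Fgg Fllg) (he : 0 < e) (l : ℝ) {g : ℝ}
    (hg : 0 < g) :
    Wl Fl Fg Fll Flg Fllg e l g = 2 * Fl l g * Flg l g - qg Fg Fll Flg Fgg e l g := by
  have hD : ContinuousOn (fun x : ℝ × ℝ => Fgg x.1 x.2 * Fll x.1 x.2 + Fg x.1 x.2 * Fllg x.1 x.2)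
      U := (h.cgg.mul h.cll).add (h.cg.mul h.cllg)
  have h1 : ∫ t in e..g, (Fgg l t * Fll l t + Fg l t * Fllg l t) =
      Fg l g * Fll l g - Fg l e * Fll l e := by
    refine intervalIntegral.integral_eq_sub_of_hasDerivAt (f := fun t => Fg l t * Fll l t)
      (fun t ht => ?_) (intable (f := fun l t => Fgg l t * Fll l t + Fg l t * Fllg l t) hD l he hg)
    have ht' := uIcc_pos he hg ht
    exact (h.dgg l t ht').fun_mul (h.dllg l t ht')
  have i1 := intable (f := fun l t => Fgg l t * Fll l t + Fg l t * Fllg l t) hD l he hg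
  have i2 := intable (f := fun l t => D Fll Flg Fgg l t) h.cont_D l he hg
  have h2 : Hll Fg Flg Fllg e l g = 2 * (∫ t in e..g, (Fgg l t * Fll l t + Fg l t * Fllg l t)) +
      2 * ∫ t in e..g, D Fll Flg Fgg l t := by
    unfold Hll
    rw [← intervalIntegral.integral_const_mul, ← intervalIntegral.integral_const_mul,
      ← intervalIntegral.integral_add (i1.const_mul _) (i2.const_mul _)]
    refine intervalIntegral.integral_congr fun t _ => ?_
    simp only [D]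
    ring
  unfold Wl qg
  rw [h2, h1]
  ring

/-- `∂_l Psi = F_l^2 - q` -/
theorem FData.Psi_l (h : FData F Fl Fg Fll Flg Fgg Fllg) (he : 0 < e) (l : ℝ) {g : ℝ}
    (hg : 0 < g) :
    HasDerivAt (fun x => Psi Fl Fg Flg e x g) (Fl l g ^ 2 - q Fl Fg Fll Flg Fgg e l g) l := by
  refine (h.Psi_l0 he l hg).congr_deriv ?_
  have h1 : ∀ t ∈ uIcc e g, HasDerivAt (fun t => Fl l t ^ 2 - q Fl Fg Fll Flg Fgg e l t)
      (Wl Fl Fg Fll Flg Fllg e l t) t := by
    intro t ht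
    have ht' := uIcc_pos he hg ht
    have h2 := ((h.dlg l t ht').fun_pow 2).fun_sub (h.q_g he l ht')
    refine h2.congr_deriv ?_
    rw [h.Wl_eq he l ht']
    simp
  rw [intervalIntegral.integral_eq_sub_of_hasDerivAt h1
    (intable (f := fun l t => Wl Fl Fg Fll Flg Fllg e l t) (h.cont_Wl he) l he hg)]
  have h3 : q Fl Fg Fll Flg Fgg e l e = Fl l e ^ 2 := by
    unfold q
    simp
  rw [h3]
  ring

theorem FData.cont_q (h : FData F Fl Fg Fll Flg Fgg Fllg) (he : 0 < e) :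
    ContinuousOn (fun x : ℝ × ℝ => q Fl Fg Fll Flg Fgg e x.1 x.2) U := by
  have hd1 := cont_prim (f := fun l t => D Fll Flg Fgg l t) h.cont_D he
  have hd2' : ContinuousOn (fun x : ℝ × ℝ => x.2 * D Fll Flg Fgg x.1 x.2) U :=
    continuousOn_snd.mul h.cont_D
  have hd2 := cont_prim (f := fun l t => t * D Fll Flg Fgg l t) hd2' he
  have hmap : ContinuousOn (fun x : ℝ × ℝ => ((x.1, e) : ℝ × ℝ)) U := by fun_prop
  have hm : MapsTo (fun x : ℝ × ℝ => ((x.1, e) : ℝ × ℝ)) U U := fun x _ => he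
  have c1 := h.cl.comp hmap hm
  have c2 := h.cg.comp hmap hm
  have c3 := h.cll.comp hmap hm
  have hall : ContinuousOn (fun x : ℝ × ℝ => Fl x.1 e ^ 2 - 2 * Fg x.1 e * Fll x.1 e * (x.2 - e) +
      2 * (x.2 * (∫ t in e..x.2, D Fll Flg Fgg x.1 t) - ∫ t in e..x.2, t * D Fll Flg Fgg x.1 t)) U :=
    ((c1.pow 2).sub (((continuousOn_const.mul c2).mul c3).mul
      (continuousOn_snd.sub continuousOn_const))).add
      (continuousOn_const.mul ((continuousOn_snd.mul hd1).sub hd2))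
  refine hall.congr fun x hx => ?_
  have i1 := intable (f := fun l t => D Fll Flg Fgg l t) h.cont_D x.1 he hx
  have i2 := intable (f := fun l t => t * D Fll Flg Fgg l t) hd2' x.1 he hx
  unfold q
  congr 2
  rw [← intervalIntegral.integral_const_mul, ← intervalIntegral.integral_sub (i1.const_mul _) i2]
  refine intervalIntegral.integral_congr fun t _ => ?_
  ring

/-- joint derivative of a function with continuous partial derivatives on `g > 0` -/
theorem hasFDerivAt_of_partials {f fl fg : ℝ → ℝ → ℝ}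
    (h1 : ∀ l g, 0 < g → HasDerivAt (fun x => f x g) (fl l g) l)
    (h2 : ∀ l g, 0 < g → HasDerivAt (f l) (fg l g) g)
    (c1 : ContinuousOn (fun x : ℝ × ℝ => fl x.1 x.2) U)
    (c2 : ContinuousOn (fun x : ℝ × ℝ => fg x.1 x.2) U) (x : ℝ × ℝ) (hx : 0 < x.2) :
    HasFDerivAt (fun x : ℝ × ℝ => f x.1 x.2)
      (fl x.1 x.2 • ContinuousLinearMap.fst ℝ ℝ ℝ + fg x.1 x.2 • ContinuousLinearMap.snd ℝ ℝ ℝ)
      x := by
  have hU : U ∈ 𝓝 x := isOpen_U.mem_nhds hx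
  have e1 : ∀ᶠ v in 𝓝 x, HasFDerivAt (f · v.2)
      (↿(fun l g => ContinuousLinearMap.toSpanSingleton ℝ (fl l g)) v) v.1 := by
    filter_upwards [hU] with v hv
    exact (h1 v.1 v.2 hv).hasFDerivAt
  have e2 : ∀ᶠ v in 𝓝 x, HasFDerivAt (f v.1 ·)
      (↿(fun l g => ContinuousLinearMap.toSpanSingleton ℝ (fg l g)) v) v.2 := by
    filter_upwards [hU] with v hv
    exact (h2 v.1 v.2 hv).hasFDerivAt
  have k1 : ContinuousAt (↿(fun l g => ContinuousLinearMap.toSpanSingleton ℝ (fl l g))) x := by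
    have := c1.continuousAt hU
    exact (ContinuousLinearMap.toSpanSingletonCLE (𝕜 := ℝ) (E := ℝ)).continuous.continuousAt.comp
      this
  have k2 : ContinuousAt (↿(fun l g => ContinuousLinearMap.toSpanSingleton ℝ (fg l g))) x := by
    have := c2.continuousAt hU
    exact (ContinuousLinearMap.toSpanSingletonCLE (𝕜 := ℝ) (E := ℝ)).continuous.continuousAt.comp
      this
  have h := (hasStrictFDerivAt_uncurry_coprod e1 e2 k1 k2).hasFDerivAt
  refine h.congr_fderiv ?_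
  ext
  · simp [Function.HasUncurry.uncurry]
  · simp [Function.HasUncurry.uncurry]

/-- `H` is jointly differentiable -/
theorem FData.H_fderiv (h : FData F Fl Fg Fll Flg Fgg Fllg) (he : 0 < e) (x : ℝ × ℝ)
    (hx : 0 < x.2) : HasFDerivAt (fun x : ℝ × ℝ => H Fg e x.1 x.2)
      (Hl Fg Flg e x.1 x.2 • ContinuousLinearMap.fst ℝ ℝ ℝ +
        Fg x.1 x.2 ^ 2 • ContinuousLinearMap.snd ℝ ℝ ℝ) x :=
  hasFDerivAt_of_partials (f := H Fg e) (fl := Hl Fg Flg e) (fg := fun l g => Fg l g ^ 2)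
    (fun l _ hg => h.H_l he l hg) (fun l _ hg => h.H_g he l hg) (h.cont_Hl he) h.cont_Fg2 x hx

/-- `Psi` is jointly differentiable -/
theorem FData.Psi_fderiv (h : FData F Fl Fg Fll Flg Fgg Fllg) (he : 0 < e) (x : ℝ × ℝ)
    (hx : 0 < x.2) : HasFDerivAt (fun x : ℝ × ℝ => Psi Fl Fg Flg e x.1 x.2)
      ((Fl x.1 x.2 ^ 2 - q Fl Fg Fll Flg Fgg e x.1 x.2) • ContinuousLinearMap.fst ℝ ℝ ℝ +
        W Fl Fg Flg e x.1 x.2 • ContinuousLinearMap.snd ℝ ℝ ℝ) x :=
  hasFDerivAt_of_partials (f := Psi Fl Fg Flg e)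
    (fl := fun l g => Fl l g ^ 2 - q Fl Fg Fll Flg Fgg e l g) (fg := W Fl Fg Flg e)
    (fun l _ hg => h.Psi_l he l hg) (fun l _ hg => h.Psi_g he l hg)
    ((h.cl.pow 2).sub (h.cont_q he)) (h.cont_W he) x hx

end Pool.Agent.H15.EH
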