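import Pool.Agent.H15.EH.Id

/-!
# EHP, block A1: the profile `Bp eta` and the data of `FF (l,t) = F (l, Bp eta t)`

`chi x = 0` for `x ≤ -1`, `(x+1)^3 (3-x)/16` on `[-1,1]`, `x` for `x ≥ 1`;
`Bp eta t = 2 eta + eta * chi ((t - 2 eta)/eta)`.
-/

set_option autoImplicit false

open MeasureTheory Set Filter Topology intervalIntegral
open scoped Real Interval

noncomputable section

namespace Pool.Agent.H15.EH

open Pool.Agent.H23.EH

/-! ### truncated powers -/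

theorem hasDerivAt_tp (a : ℝ) (n : ℕ) (x : ℝ) :
    HasDerivAt (fun x : ℝ => max (x - a) 0 ^ (n + 2)) ((n + 2) * max (x - a) 0 ^ (n + 1)) x := by
  have hp : ∀ y : ℝ, HasDerivAt (fun x : ℝ => (x - a) ^ (n + 2)) ((n + 2) * (y - a) ^ (n + 1)) y := by
    intro y
    have := ((hasDerivAt_id y).sub_const a).fun_pow (n + 2)
    refine this.congr_deriv ?_
    simp
  rcases lt_trichotomy x a with hx | hx | hx
  · have h0 : HasDerivAt (fun _ : ℝ => (0 : ℝ)) 0 x := hasDerivAt_const x 0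
    have h1 : max (x - a) 0 = 0 := max_eq_right (by linarith)
    rw [h1]
    have h2 : ((n : ℝ) + 2) * (0 : ℝ) ^ (n + 1) = 0 := by simp
    rw [h2]
    refine h0.congr_of_eventuallyEq ?_
    filter_upwards [Iio_mem_nhds hx] with y hy
    have : max (y - a) 0 = 0 := max_eq_right (by have := mem_Iio.1 hy; linarith)
    rw [this]
    simp
  · subst hx
    have h1 : max (x - x) 0 = 0 := by simp
    have h2 : ((n : ℝ) + 2) * (max (x - x) 0) ^ (n + 1) = 0 := by simp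
    rw [h2]
    have hl : HasDerivWithinAt (fun y : ℝ => max (y - x) 0 ^ (n + 2)) 0 (Iic x) x := by
      refine (hasDerivWithinAt_const x (Iic x) (0 : ℝ)).congr ?_ ?_
      · intro y hy
        have : max (y - x) 0 = 0 := max_eq_right (by have := mem_Iic.1 hy; linarith)
        rw [this]
        simp
      · simp
    have hr : HasDerivWithinAt (fun y : ℝ => max (y - x) 0 ^ (n + 2)) 0 (Ici x) x := by
      have h3 := (hp x).hasDerivWithinAt (s := Ici x)
      have h4 : ((n : ℝ) + 2) * (x - x) ^ (n + 1) = 0 := by simp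
      rw [h4] at h3
      have hp' : HasDerivWithinAt (fun y : ℝ => (y - x) ^ (n + 2)) 0 (Ici x) x := h3
      refine hp'.congr ?_ ?_
      · intro y hy
        have : max (y - x) 0 = y - x := max_eq_left (by have := mem_Ici.1 hy; linarith)
        rw [this]
      · simp
    have := hl.union hr
    rw [Iic_union_Ici, hasDerivWithinAt_univ] at this
    exact this
  · have h1 : max (x - a) 0 = x - a := max_eq_left (by linarith)
    rw [h1]
    refine (hp x).congr_of_eventuallyEq ?_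
    filter_upwards [Ioi_mem_nhds hx] with y hy
    have : max (y - a) 0 = y - a := max_eq_left (by have := mem_Ioi.1 hy; linarith)
    rw [this]

/-! ### the profile `chi` -/

/-- smooth version of `max x 0`, corner on `[-1,1]` -/
def chi (x : ℝ) : ℝ :=
  1 / 4 * max (x + 1) 0 ^ 3 - 1 / 16 * max (x + 1) 0 ^ 4 + 1 / 4 * max (x - 1) 0 ^ 3 +
    1 / 16 * max (x - 1) 0 ^ 4

/-- `chi'` -/
def chi1 (x : ℝ) : ℝ :=
  3 / 4 * max (x + 1) 0 ^ 2 - 1 / 4 * max (x + 1) 0 ^ 3 + 3 / 4 * max (x - 1) 0 ^ 2 +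
    1 / 4 * max (x - 1) 0 ^ 3

/-- `chi''` -/
def chi2 (x : ℝ) : ℝ :=
  3 / 2 * max (x + 1) 0 - 3 / 4 * max (x + 1) 0 ^ 2 + 3 / 2 * max (x - 1) 0 +
    3 / 4 * max (x - 1) 0 ^ 2

theorem chi_hasDerivAt (x : ℝ) : HasDerivAt chi (chi1 x) x := by
  have a3 := hasDerivAt_tp (-1) 1 x
  have a4 := hasDerivAt_tp (-1) 2 x
  have b3 := hasDerivAt_tp 1 1 x
  have b4 := hasDerivAt_tp 1 2 x
  have h := (((a3.const_mul (1 / 4)).fun_sub (a4.const_mul (1 / 16))).fun_add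
    (b3.const_mul (1 / 4))).fun_add (b4.const_mul (1 / 16))
  have h2 := h.congr_of_eventuallyEq (f₁ := chi) (Filter.Eventually.of_forall fun y => by
    simp only [chi, sub_neg_eq_add])
  refine h2.congr_deriv ?_
  simp only [chi1, sub_neg_eq_add]
  push_cast
  ring

theorem chi1_hasDerivAt (x : ℝ) : HasDerivAt chi1 (chi2 x) x := by
  have a3 := hasDerivAt_tp (-1) 0 x
  have a4 := hasDerivAt_tp (-1) 1 x
  have b3 := hasDerivAt_tp 1 0 x
  have b4 := hasDerivAt_tp 1 1 x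
  have h := (((a3.const_mul (3 / 4)).fun_sub (a4.const_mul (1 / 4))).fun_add
    (b3.const_mul (3 / 4))).fun_add (b4.const_mul (1 / 4))
  have h2 := h.congr_of_eventuallyEq (f₁ := chi1) (Filter.Eventually.of_forall fun y => by
    simp only [chi1, sub_neg_eq_add, zero_add])
  refine h2.congr_deriv ?_
  simp only [chi2, sub_neg_eq_add]
  push_cast
  ring

theorem chi2_continuous : Continuous chi2 := by unfold chi2; fun_prop
theorem chi1_continuous : Continuous chi1 := by unfold chi1; fun_prop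
theorem chi_continuous : Continuous chi := by unfold chi; fun_prop

theorem chi_of_le {x : ℝ} (hx : x ≤ -1) : chi x = 0 := by
  have h1 : max (x + 1) 0 = 0 := max_eq_right (by linarith)
  have h2 : max (x - 1) 0 = 0 := max_eq_right (by linarith)
  unfold chi
  rw [h1, h2]
  norm_num

theorem chi1_of_le {x : ℝ} (hx : x ≤ -1) : chi1 x = 0 := by
  have h1 : max (x + 1) 0 = 0 := max_eq_right (by linarith)
  have h2 : max (x - 1) 0 = 0 := max_eq_right (by linarith)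
  unfold chi1
  rw [h1, h2]
  norm_num

theorem chi2_of_le {x : ℝ} (hx : x ≤ -1) : chi2 x = 0 := by
  have h1 : max (x + 1) 0 = 0 := max_eq_right (by linarith)
  have h2 : max (x - 1) 0 = 0 := max_eq_right (by linarith)
  unfold chi2
  rw [h1, h2]
  norm_num

theorem chi_of_ge {x : ℝ} (hx : 1 ≤ x) : chi x = x := by
  have h1 : max (x + 1) 0 = x + 1 := max_eq_left (by linarith)
  have h2 : max (x - 1) 0 = x - 1 := max_eq_left (by linarith)
  unfold chi
  rw [h1, h2]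
  ring

theorem chi1_of_ge {x : ℝ} (hx : 1 ≤ x) : chi1 x = 1 := by
  have h1 : max (x + 1) 0 = x + 1 := max_eq_left (by linarith)
  have h2 : max (x - 1) 0 = x - 1 := max_eq_left (by linarith)
  unfold chi1
  rw [h1, h2]
  ring

theorem chi2_of_ge {x : ℝ} (hx : 1 ≤ x) : chi2 x = 0 := by
  have h1 : max (x + 1) 0 = x + 1 := max_eq_left (by linarith)
  have h2 : max (x - 1) 0 = x - 1 := max_eq_left (by linarith)
  unfold chi2
  rw [h1, h2]
  ring

theorem chi_of_mem {x : ℝ} (h1 : -1 ≤ x) (h2 : x ≤ 1) : chi x = (x + 1) ^ 3 * (3 - x) / 16 := by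
  have h1 : max (x + 1) 0 = x + 1 := max_eq_left (by linarith)
  have h2 : max (x - 1) 0 = 0 := max_eq_right (by linarith)
  unfold chi
  rw [h1, h2]
  ring

theorem chi1_of_mem {x : ℝ} (h1 : -1 ≤ x) (h2 : x ≤ 1) : chi1 x = (x + 1) ^ 2 * (2 - x) / 4 := by
  have h1 : max (x + 1) 0 = x + 1 := max_eq_left (by linarith)
  have h2 : max (x - 1) 0 = 0 := max_eq_right (by linarith)
  unfold chi1
  rw [h1, h2]
  ring

theorem chi2_of_mem {x : ℝ} (h1 : -1 ≤ x) (h2 : x ≤ 1) : chi2 x = 3 / 4 * (1 - x ^ 2) := by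
  have h1 : max (x + 1) 0 = x + 1 := max_eq_left (by linarith)
  have h2 : max (x - 1) 0 = 0 := max_eq_right (by linarith)
  unfold chi2
  rw [h1, h2]
  ring

theorem chi2_nonneg (x : ℝ) : 0 ≤ chi2 x := by
  rcases le_total x (-1) with h | h
  · rw [chi2_of_le h]
  rcases le_total x 1 with h' | h'
  · rw [chi2_of_mem h h']
    nlinarith
  · rw [chi2_of_ge h']

theorem chi2_le (x : ℝ) : chi2 x ≤ 3 / 4 := by
  rcases le_total x (-1) with h | h
  · rw [chi2_of_le h]; norm_num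
  rcases le_total x 1 with h' | h'
  · rw [chi2_of_mem h h']
    nlinarith [sq_nonneg x]
  · rw [chi2_of_ge h']; norm_num

theorem chi1_nonneg (x : ℝ) : 0 ≤ chi1 x := by
  rcases le_total x (-1) with h | h
  · rw [chi1_of_le h]
  rcases le_total x 1 with h' | h'
  · rw [chi1_of_mem h h']
    have : 0 ≤ (x + 1) ^ 2 * (2 - x) := mul_nonneg (sq_nonneg _) (by linarith)
    linarith
  · rw [chi1_of_ge h']; norm_num

theorem chi1_le (x : ℝ) : chi1 x ≤ 1 := by
  rcases le_total x (-1) with h | h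
  · rw [chi1_of_le h]; norm_num
  rcases le_total x 1 with h' | h'
  · rw [chi1_of_mem h h']
    nlinarith [mul_nonneg (sq_nonneg (x - 1)) (by linarith : (0 : ℝ) ≤ x + 2)]
  · rw [chi1_of_ge h']

theorem chi_nonneg (x : ℝ) : 0 ≤ chi x := by
  rcases le_total x (-1) with h | h
  · rw [chi_of_le h]
  rcases le_total x 1 with h' | h'
  · rw [chi_of_mem h h']
    have : 0 ≤ (x + 1) ^ 3 * (3 - x) := mul_nonneg (pow_nonneg (by linarith) 3) (by linarith)
    linarith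
  · rw [chi_of_ge h']; linarith

theorem le_chi (x : ℝ) : x ≤ chi x := by
  rcases le_total x (-1) with h | h
  · rw [chi_of_le h]; linarith
  rcases le_total x 1 with h' | h'
  · rw [chi_of_mem h h']
    nlinarith [mul_nonneg (pow_nonneg (by linarith : (0 : ℝ) ≤ 1 - x) 3)
      (by linarith : (0 : ℝ) ≤ x + 3)]
  · rw [chi_of_ge h']

/-! ### the profile `Bp eta` -/

/-- the profile `B`: `2 eta` for `t ≤ eta`, `t` for `t ≥ 3 eta`, `C²` and convex -/
def Bp (η t : ℝ) : ℝ := 2 * η + η * chi ((t - 2 * η) / η)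

/-- `B'` -/
def Bp1 (η t : ℝ) : ℝ := chi1 ((t - 2 * η) / η)

/-- `B''` -/
def Bp2 (η t : ℝ) : ℝ := chi2 ((t - 2 * η) / η) / η

section
variable {η : ℝ}

theorem Bp_hasDerivAt (hη : 0 < η) (t : ℝ) : HasDerivAt (Bp η) (Bp1 η t) t := by
  have h1 : HasDerivAt (fun t : ℝ => (t - 2 * η) / η) (1 / η) t :=
    ((hasDerivAt_id t).sub_const (2 * η)).div_const η
  have h2 := (((chi_hasDerivAt ((t - 2 * η) / η)).comp t h1).const_mul η).const_add (2 * η)
  refine h2.congr_deriv ?_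
  unfold Bp1
  field_simp

theorem Bp1_hasDerivAt (hη : 0 < η) (t : ℝ) : HasDerivAt (Bp1 η) (Bp2 η t) t := by
  have h1 : HasDerivAt (fun t : ℝ => (t - 2 * η) / η) (1 / η) t :=
    ((hasDerivAt_id t).sub_const (2 * η)).div_const η
  have h2 := (chi1_hasDerivAt ((t - 2 * η) / η)).comp t h1
  refine h2.congr_deriv ?_
  unfold Bp2
  field_simp

theorem Bp_continuous : Continuous (Bp η) := by
  unfold Bp
  exact continuous_const.add (continuous_const.mul (chi_continuous.comp (by fun_prop)))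

theorem Bp1_continuous : Continuous (Bp1 η) := by
  unfold Bp1
  exact chi1_continuous.comp (by fun_prop)

theorem Bp2_continuous : Continuous (Bp2 η) := by
  unfold Bp2
  exact (chi2_continuous.comp (by fun_prop)).div_const η

theorem arg_le (hη : 0 < η) {t : ℝ} (ht : t ≤ η) : (t - 2 * η) / η ≤ -1 := by
  rw [div_le_iff₀ hη]; linarith

theorem arg_ge (hη : 0 < η) {t : ℝ} (ht : 3 * η ≤ t) : 1 ≤ (t - 2 * η) / η := by
  rw [le_div_iff₀ hη]; linarith

theorem Bp_of_le (hη : 0 < η) {t : ℝ} (ht : t ≤ η) : Bp η t = 2 * η := by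
  unfold Bp
  rw [chi_of_le (arg_le hη ht)]
  ring

theorem Bp1_of_le (hη : 0 < η) {t : ℝ} (ht : t ≤ η) : Bp1 η t = 0 :=
  chi1_of_le (arg_le hη ht)

theorem Bp2_of_le (hη : 0 < η) {t : ℝ} (ht : t ≤ η) : Bp2 η t = 0 := by
  unfold Bp2
  rw [chi2_of_le (arg_le hη ht)]
  simp

theorem Bp_of_ge (hη : 0 < η) {t : ℝ} (ht : 3 * η ≤ t) : Bp η t = t := by
  unfold Bp
  rw [chi_of_ge (arg_ge hη ht)]
  field_simp
  ring

theorem Bp1_of_ge (hη : 0 < η) {t : ℝ} (ht : 3 * η ≤ t) : Bp1 η t = 1 :=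
  chi1_of_ge (arg_ge hη ht)

theorem Bp2_of_ge (hη : 0 < η) {t : ℝ} (ht : 3 * η ≤ t) : Bp2 η t = 0 := by
  unfold Bp2
  rw [chi2_of_ge (arg_ge hη ht)]
  simp

theorem Bp1_nonneg (t : ℝ) : 0 ≤ Bp1 η t := chi1_nonneg _
theorem Bp1_le_one (t : ℝ) : Bp1 η t ≤ 1 := chi1_le _
theorem Bp2_nonneg (hη : 0 < η) (t : ℝ) : 0 ≤ Bp2 η t := div_nonneg (chi2_nonneg _) hη.le
theorem Bp2_le (hη : 0 < η) (t : ℝ) : Bp2 η t ≤ 1 / η := by
  unfold Bp2
  gcongr
  exact (chi2_le _).trans (by norm_num)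

theorem two_le_Bp (hη : 0 < η) (t : ℝ) : 2 * η ≤ Bp η t := by
  unfold Bp
  have := mul_nonneg hη.le (chi_nonneg ((t - 2 * η) / η))
  linarith

theorem le_Bp (hη : 0 < η) (t : ℝ) : t ≤ Bp η t := by
  unfold Bp
  have h1 := mul_le_mul_of_nonneg_left (le_chi ((t - 2 * η) / η)) hη.le
  have h2 : η * ((t - 2 * η) / η) = t - 2 * η := by field_simp
  linarith

theorem Bp_pos (hη : 0 < η) (t : ℝ) : 0 < Bp η t := by
  have := two_le_Bp hη t
  linarith

theorem Bp_mono (hη : 0 < η) : Monotone (Bp η) :=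
  monotone_of_deriv_nonneg (fun t => (Bp_hasDerivAt hη t).differentiableAt)
    (fun t => by rw [(Bp_hasDerivAt hη t).deriv]; exact Bp1_nonneg t)

theorem Bp_le (hη : 0 < η) (t : ℝ) : Bp η t ≤ max t (3 * η) := by
  rcases le_total t (3 * η) with h | h
  · have h1 := Bp_mono hη h
    rw [Bp_of_ge hη le_rfl] at h1
    exact h1.trans (le_max_right _ _)
  · rw [Bp_of_ge hη h]
    exact le_max_left _ _

/-- integral of `B''` -/
theorem integral_Bp2 (hη : 0 < η) (a b : ℝ) : ∫ t in a..b, Bp2 η t = Bp1 η b - Bp1 η a :=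
  intervalIntegral.integral_eq_sub_of_hasDerivAt (fun t _ => Bp1_hasDerivAt hη t)
    (Bp2_continuous.intervalIntegrable _ _)

end

/-! ### data of `FF (l,t) = F (l, B t)` -/

variable {F Fl Fg Fll Flg Fgg Fllg : ℝ → ℝ → ℝ}

theorem cont_comp {f : ℝ → ℝ → ℝ} (hf : ContinuousOn (fun x : ℝ × ℝ => f x.1 x.2) U) {B : ℝ → ℝ}
    (hB : Continuous B) (hpos : ∀ t, 0 < B t) :
    ContinuousOn (fun x : ℝ × ℝ => f x.1 (B x.2)) U := by
  have h1 : Continuous (fun x : ℝ × ℝ => ((x.1, B x.2) : ℝ × ℝ)) := by fun_prop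
  exact (hf.comp_continuous h1 (fun x => hpos x.2)).continuousOn

/-- the data of the composition -/
theorem FData.comp (h : FData F Fl Fg Fll Flg Fgg Fllg) {B B1 B2 : ℝ → ℝ}
    (hB : ∀ t, HasDerivAt B (B1 t) t) (hB1 : ∀ t, HasDerivAt B1 (B2 t) t) (cB2 : Continuous B2)
    (hpos : ∀ t, 0 < B t) :
    FData (fun l t => F l (B t)) (fun l t => Fl l (B t)) (fun l t => Fg l (B t) * B1 t)
      (fun l t => Fll l (B t)) (fun l t => Flg l (B t) * B1 t)
      (fun l t => Fgg l (B t) * B1 t ^ 2 + Fg l (B t) * B2 t)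
      (fun l t => Fllg l (B t) * B1 t) := by
  have cB : Continuous B := continuous_iff_continuousAt.2 fun t => (hB t).continuousAt
  have cB1 : Continuous B1 := continuous_iff_continuousAt.2 fun t => (hB1 t).continuousAt
  have cB1' : ContinuousOn (fun x : ℝ × ℝ => B1 x.2) U := (cB1.comp continuous_snd).continuousOn
  have cB2' : ContinuousOn (fun x : ℝ × ℝ => B2 x.2) U := (cB2.comp continuous_snd).continuousOn
  refine ⟨?_, ?_, ?_, ?_, ?_, ?_, ?_, ?_, ?_, ?_, ?_, ?_, ?_, ?_⟩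
  · intro l t _; exact h.dl l (B t) (hpos t)
  · intro l t _; exact (h.dg l (B t) (hpos t)).comp t (hB t)
  · intro l t _; exact h.dll l (B t) (hpos t)
  · intro l t _; exact (h.dlg l (B t) (hpos t)).comp t (hB t)
  · intro l t _; exact (h.dgl l (B t) (hpos t)).mul_const (B1 t)
  · intro l t _
    have h1 := ((h.dgg l (B t) (hpos t)).comp t (hB t)).fun_mul (hB1 t)
    refine h1.congr_deriv ?_
    simp only [Function.comp]
    ring
  · intro l t _; exact (h.dllg l (B t) (hpos t)).comp t (hB t)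
  · intro l t _; exact (h.dlgl l (B t) (hpos t)).mul_const (B1 t)
  · exact cont_comp h.cl cB hpos
  · exact (cont_comp h.cg cB hpos).mul cB1'
  · exact cont_comp h.cll cB hpos
  · exact (cont_comp h.clg cB hpos).mul cB1'
  · exact ((cont_comp h.cgg cB hpos).mul (cB1'.pow 2)).add ((cont_comp h.cg cB hpos).mul cB2')
  · exact (cont_comp h.cllg cB hpos).mul cB1'

/-! ### the form FF -/

/-- `FF (l,t) = F (l, Bp eta t)` -/
def FF (F : ℝ → ℝ → ℝ) (η l t : ℝ) : ℝ := F l (Bp η t)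
/-- `∂_t FF` from `F_g` -/
def FFg (Fg : ℝ → ℝ → ℝ) (η l t : ℝ) : ℝ := Fg l (Bp η t) * Bp1 η t
/-- `∂_tt FF` -/
def FFgg (Fg Fgg : ℝ → ℝ → ℝ) (η l t : ℝ) : ℝ :=
  Fgg l (Bp η t) * Bp1 η t ^ 2 + Fg l (Bp η t) * Bp2 η t

/-- data of `FF`: `FF_l = FF Fl`, `FF_ll = FF Fll`, `FF_lt = FFg Flg`, `FF_llt = FFg Fllg` -/
theorem FData.ff (h : FData F Fl Fg Fll Flg Fgg Fllg) {η : ℝ} (hη : 0 < η) :
    FData (FF F η) (FF Fl η) (FFg Fg η) (FF Fll η) (FFg Flg η) (FFgg Fg Fgg η) (FFg Fllg η) :=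
  h.comp (Bp_hasDerivAt hη) (Bp1_hasDerivAt hη) Bp2_continuous (Bp_pos hη)

/-- `w (l,g) = F_lg^2 - F_ll F_gg` is `D Fll Flg Fgg`; the layer weight of `q_FF` is `2 * wF` -/
def wF (Fg Fll Flg Fgg : ℝ → ℝ → ℝ) (η l t : ℝ) : ℝ :=
  Bp1 η t ^ 2 * D Fll Flg Fgg l (Bp η t) - Bp2 η t * (Fg l (Bp η t) * Fll l (Bp η t))

theorem D_ff (η l t : ℝ) :
    D (FF Fll η) (FFg Flg η) (FFgg Fg Fgg η) l t = wF Fg Fll Flg Fgg η l t := by
  unfold D wF FF FFg FFgg D
  ring

theorem FFg_of_le {η : ℝ} (hη : 0 < η) (l : ℝ) {t : ℝ} (ht : t ≤ η) : FFg Fg η l t = 0 := by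
  unfold FFg
  rw [Bp1_of_le hη ht]
  simp

theorem FF_of_le {η : ℝ} (hη : 0 < η) (l : ℝ) {t : ℝ} (ht : t ≤ η) :
    FF F η l t = F l (2 * η) := by
  unfold FF
  rw [Bp_of_le hη ht]

theorem FF_of_ge {η : ℝ} (hη : 0 < η) (l : ℝ) {t : ℝ} (ht : 3 * η ≤ t) :
    FF F η l t = F l t := by
  unfold FF
  rw [Bp_of_ge hη ht]

theorem FFg_of_ge {η : ℝ} (hη : 0 < η) (l : ℝ) {t : ℝ} (ht : 3 * η ≤ t) :
    FFg Fg η l t = Fg l t := by
  unfold FFg
  rw [Bp_of_ge hη ht, Bp1_of_ge hη ht, mul_one]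

/-- `q` of `FF` -/
def qF (Fl Fg Fll Flg Fgg : ℝ → ℝ → ℝ) (η l t : ℝ) : ℝ :=
  q (FF Fl η) (FFg Fg η) (FF Fll η) (FFg Flg η) (FFgg Fg Fgg η) η l t

/-- `H` of `FF` -/
def HF (Fg : ℝ → ℝ → ℝ) (η l t : ℝ) : ℝ := H (FFg Fg η) η l t

/-- `Psi` of `FF` -/
def PsiF (Fl Fg Flg : ℝ → ℝ → ℝ) (η l t : ℝ) : ℝ := Psi (FF Fl η) (FFg Fg η) (FFg Flg η) η l t

/-- boundary functional of `FF` -/
def ThetaF (Fl Fg Flg : ℝ → ℝ → ℝ) (η : ℝ) (G : ℝ × ℝ → ℝ) (l : ℝ) : ℝ :=
  ∫ φ in 0..2 * π, (HF Fg η l (G (l, φ)) * d1 G (l, φ) + PsiF Fl Fg Flg η l (G (l, φ)))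

/-- energy density of `FF (l, G)` -/
def denF (Fl Fg : ℝ → ℝ → ℝ) (η : ℝ) (G : ℝ × ℝ → ℝ) (x : ℝ × ℝ) : ℝ :=
  (FF Fl η x.1 (G x) + FFg Fg η x.1 (G x) * d1 G x) ^ 2 + (FFg Fg η x.1 (G x) * d2 G x) ^ 2

/-- the formula for `q_FF`, valid for all `t` -/
theorem qF_eq {η : ℝ} (hη : 0 < η) (l t : ℝ) :
    qF Fl Fg Fll Flg Fgg η l t = Fl l (2 * η) ^ 2 +
      2 * ∫ s in η..t, (t - s) * wF Fg Fll Flg Fgg η l s := by
  unfold qF q
  rw [FFg_of_le hη l le_rfl, FF_of_le hη l le_rfl]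
  simp only [D_ff]
  ring

theorem wF_of_le {η : ℝ} (hη : 0 < η) (l : ℝ) {t : ℝ} (ht : t ≤ η) :
    wF Fg Fll Flg Fgg η l t = 0 := by
  unfold wF
  rw [Bp1_of_le hη ht, Bp2_of_le hη ht]
  ring

theorem wF_of_ge {η : ℝ} (hη : 0 < η) (l : ℝ) {t : ℝ} (ht : 3 * η ≤ t) :
    wF Fg Fll Flg Fgg η l t = D Fll Flg Fgg l t := by
  unfold wF
  rw [Bp1_of_ge hη ht, Bp2_of_ge hη ht, Bp_of_ge hη ht]
  ring

theorem FData.cont_wF (h : FData F Fl Fg Fll Flg Fgg Fllg) {η : ℝ} (hη : 0 < η) :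
    ContinuousOn (fun x : ℝ × ℝ => wF Fg Fll Flg Fgg η x.1 x.2) U := by
  have h1 := (h.ff hη).cont_D
  exact h1.congr fun x _ => (D_ff η x.1 x.2).symm

/-- in fact `wF` is continuous on the whole plane -/
theorem FData.cont_wF' (h : FData F Fl Fg Fll Flg Fgg Fllg) {η : ℝ} (hη : 0 < η) :
    Continuous (fun x : ℝ × ℝ => wF Fg Fll Flg Fgg η x.1 x.2) := by
  have hm : Continuous (fun x : ℝ × ℝ => ((x.1, Bp η x.2) : ℝ × ℝ)) :=
    continuous_fst.prodMk (Bp_continuous.comp continuous_snd)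
  have hc : ∀ {f : ℝ → ℝ → ℝ}, ContinuousOn (fun x : ℝ × ℝ => f x.1 x.2) U →
      Continuous (fun x : ℝ × ℝ => f x.1 (Bp η x.2)) :=
    fun hf => hf.comp_continuous hm (fun x => Bp_pos hη x.2)
  have c1 : Continuous (fun x : ℝ × ℝ => Bp1 η x.2) := Bp1_continuous.comp continuous_snd
  have c2 : Continuous (fun x : ℝ × ℝ => Bp2 η x.2) := Bp2_continuous.comp continuous_snd
  exact ((c1.pow 2).mul (hc (f := fun l t => D Fll Flg Fgg l t) h.cont_D)).sub
    (c2.mul ((hc h.cg).mul (hc h.cll)))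

theorem qF_of_le {η : ℝ} (hη : 0 < η) (l : ℝ) {t : ℝ} (ht : t ≤ η) :
    qF Fl Fg Fll Flg Fgg η l t = Fl l (2 * η) ^ 2 := by
  rw [qF_eq hη]
  have : ∫ s in η..t, (t - s) * wF Fg Fll Flg Fgg η l s = ∫ s in η..t, (0 : ℝ) := by
    refine intervalIntegral.integral_congr fun s hs => ?_
    rw [uIcc_of_ge ht] at hs
    have := wF_of_le (Fg := Fg) (Fll := Fll) (Flg := Flg) (Fgg := Fgg) hη l hs.2
    simp only [this, mul_zero]
  rw [this]
  simp

theorem HF_of_le {η : ℝ} (hη : 0 < η) (l : ℝ) {t : ℝ} (ht : t ≤ η) : HF Fg η l t = 0 := by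
  unfold HF H
  have : ∫ s in η..t, FFg Fg η l s ^ 2 = ∫ s in η..t, (0 : ℝ) := by
    refine intervalIntegral.integral_congr fun s hs => ?_
    rw [uIcc_of_ge ht] at hs
    have := FFg_of_le (Fg := Fg) hη l hs.2
    simp only [this]
    norm_num
  rw [this]
  simp

theorem HF_nonneg {η : ℝ} (hη : 0 < η) (l t : ℝ) : 0 ≤ HF Fg η l t := by
  rcases le_total t η with ht | ht
  · rw [HF_of_le hη l ht]
  · unfold HF H
    exact intervalIntegral.integral_nonneg ht fun s _ => sq_nonneg _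

theorem PsiF_of_le {η : ℝ} (hη : 0 < η) (l : ℝ) {t : ℝ} (ht : t ≤ η) :
    PsiF Fl Fg Flg η l t = 0 := by
  unfold PsiF Psi
  have : ∫ s in η..t, W (FF Fl η) (FFg Fg η) (FFg Flg η) η l s = ∫ s in η..t, (0 : ℝ) := by
    refine intervalIntegral.integral_congr fun s hs => ?_
    rw [uIcc_of_ge ht] at hs
    have h1 := FFg_of_le (Fg := Fg) hη l hs.2
    have h2 : Hl (FFg Fg η) (FFg Flg η) η l s = 0 := by
      unfold Hl
      have : ∫ r in η..s, 2 * FFg Fg η l r * FFg Flg η l r = ∫ r in η..s, (0 : ℝ) := by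
        refine intervalIntegral.integral_congr fun r hr => ?_
        rw [uIcc_of_ge hs.2] at hr
        have := FFg_of_le (Fg := Fg) hη l hr.2
        simp only [this]
        ring
      rw [this]
      simp
    simp only [W, h1, h2]
    ring
  rw [this]
  simp

/-- **the energy identity in form FF**: `G > 0` is `C²`, periodic, and harmonic on `{G > eta}` -/
theorem FData.ff_energy_id (h : FData F Fl Fg Fll Flg Fgg Fllg) {η : ℝ} (hη : 0 < η)
    {G : ℝ × ℝ → ℝ} (hG : ContDiff ℝ 2 G) (hper : ∀ l φ, G (l, φ + 2 * π) = G (l, φ))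
    {l₁ l₂ : ℝ} (hl : l₁ ≤ l₂) (hpos : ∀ l ∈ Icc l₁ l₂, ∀ φ ∈ Icc 0 (2 * π), 0 < G (l, φ))
    (hharm : ∀ l ∈ Icc l₁ l₂, ∀ φ ∈ Icc 0 (2 * π), η < G (l, φ) →
      d1 (d1 G) (l, φ) + d2 (d2 G) (l, φ) = 0) :
    (∫ l in l₁..l₂, ∫ φ in 0..2 * π, denF Fl Fg η G (l, φ)) =
      (∫ l in l₁..l₂, ∫ φ in 0..2 * π, qF Fl Fg Fll Flg Fgg η l (G (l, φ))) +
      (ThetaF Fl Fg Flg η G l₂ - ThetaF Fl Fg Flg η G l₁) := by
  have hpi : (0 : ℝ) ≤ 2 * π := by positivity
  have hm := (h.ff hη).energy_id hη hG hper hl hpos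
  have e1 : (∫ l in l₁..l₂, ∫ φ in 0..2 * π, denF Fl Fg η G (l, φ)) =
      ∫ l in l₁..l₂, ∫ φ in 0..2 * π, (den (FF Fl η) (FFg Fg η) G (l, φ) +
        H (FFg Fg η) η l (G (l, φ)) * (d1 (d1 G) (l, φ) + d2 (d2 G) (l, φ))) := by
    refine intervalIntegral.integral_congr fun l hl' => ?_
    refine intervalIntegral.integral_congr fun φ hφ => ?_
    rw [uIcc_of_le hl] at hl'
    rw [uIcc_of_le hpi] at hφ
    have h0 : H (FFg Fg η) η l (G (l, φ)) * (d1 (d1 G) (l, φ) + d2 (d2 G) (l, φ)) = 0 := by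
      rcases le_or_gt (G (l, φ)) η with hg | hg
      · have : HF Fg η l (G (l, φ)) = 0 := HF_of_le hη l hg
        unfold HF at this
        rw [this, zero_mul]
      · rw [hharm l hl' φ hφ hg, mul_zero]
    simp only [h0, add_zero]
    rfl
  rw [e1]
  exact hm

end Pool.Agent.H15.EH
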