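import Pool.Agent.H24.EH.Defs
import Pool.Agent.H15.EH.FF

/-!
# EHP: blocks (P), (P2), (A) of `H24/EH/Energy.lean`

`Bp_props`, `FF_data`, `identity` with the names and statements of `Pool.Agent.H24.EH`.
-/

set_option autoImplicit false

open MeasureTheory Set Filter Topology intervalIntegral
open scoped Real Interval

noncomputable section

namespace Pool.Agent.H15.EH

open Pool.Agent.H23.EH (d1 d2 gp)
open Pool.Agent.H24.EH (YData En Th Hf Pf qf B1 B2 FFl FFll FFlg FFllg)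

/-! ### the two profiles agree -/

theorem chi_eq : Pool.Agent.H24.EH.chi = chi := by
  funext x
  unfold Pool.Agent.H24.EH.chi
  split_ifs with h1 h2
  · rw [chi_of_le h1]
  · rw [chi_of_mem (not_le.1 h1).le h2]
  · rw [chi_of_ge (not_le.1 h2).le]

theorem chi1_eq : Pool.Agent.H24.EH.chi' = chi1 := by
  funext x
  unfold Pool.Agent.H24.EH.chi'
  split_ifs with h1 h2
  · rw [chi1_of_le h1]
  · rw [chi1_of_mem (not_le.1 h1).le h2]
  · rw [chi1_of_ge (not_le.1 h2).le]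

theorem chi2_eq : Pool.Agent.H24.EH.chi'' = chi2 := by
  funext x
  unfold Pool.Agent.H24.EH.chi''
  split_ifs with h1 h2
  · rw [chi2_of_le h1]
  · rw [chi2_of_mem (not_le.1 h1).le h2]
  · rw [chi2_of_ge (not_le.1 h2).le]

theorem Bp_eq : Pool.Agent.H24.EH.Bp = Bp := by
  funext η t
  unfold Pool.Agent.H24.EH.Bp Bp
  rw [chi_eq]

theorem B1_eq : B1 = Bp1 := by
  funext η t
  unfold Pool.Agent.H24.EH.B1 Bp1
  rw [chi1_eq]

theorem B2_eq : B2 = Bp2 := by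
  funext η t
  unfold Pool.Agent.H24.EH.B2 Bp2
  rw [chi2_eq]

/-- (P) profile -/
theorem Bp_props (η : ℝ) (hη : 0 < η) :
    (∀ t, HasDerivAt (Pool.Agent.H24.EH.Bp η) (B1 η t) t) ∧ (∀ t, HasDerivAt (B1 η) (B2 η t) t) ∧
    Continuous (B2 η) ∧
    (∀ t, t ≤ η → Pool.Agent.H24.EH.Bp η t = 2 * η ∧ B1 η t = 0 ∧ B2 η t = 0) ∧
    (∀ t, 3 * η ≤ t → Pool.Agent.H24.EH.Bp η t = t ∧ B1 η t = 1 ∧ B2 η t = 0) ∧
    (∀ t, 0 ≤ B1 η t ∧ B1 η t ≤ 1 ∧ 0 ≤ B2 η t ∧ B2 η t ≤ 1 / η) ∧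
    (∀ t, 2 * η ≤ Pool.Agent.H24.EH.Bp η t ∧ t ≤ Pool.Agent.H24.EH.Bp η t ∧
      Pool.Agent.H24.EH.Bp η t ≤ max t (2 * η) + η) := by
  rw [Bp_eq, B1_eq, B2_eq]
  refine ⟨Bp_hasDerivAt hη, Bp1_hasDerivAt hη, Bp2_continuous,
    fun t ht => ⟨Bp_of_le hη ht, Bp1_of_le hη ht, Bp2_of_le hη ht⟩,
    fun t ht => ⟨Bp_of_ge hη ht, Bp1_of_ge hη ht, Bp2_of_ge hη ht⟩,
    fun t => ⟨Bp1_nonneg t, Bp1_le_one t, Bp2_nonneg hη t, Bp2_le hη t⟩,
    fun t => ⟨two_le_Bp hη t, le_Bp hη t, (Bp_le hη t).trans ?_⟩⟩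
  refine max_le ?_ ?_
  · have := le_max_left t (2 * η); linarith
  · have := le_max_right t (2 * η); linarith

section
variable {F Fl Fg Fll Flg Fgg Fllg : ℝ → ℝ → ℝ}

theorem FF_eq (F : ℝ → ℝ → ℝ) : Pool.Agent.H24.EH.FF F = FF F := by
  funext η l t
  unfold Pool.Agent.H24.EH.FF FF
  rw [Bp_eq]

theorem FFl_eq (F : ℝ → ℝ → ℝ) : FFl F = FF F := by
  funext η l t
  unfold Pool.Agent.H24.EH.FFl FF
  rw [Bp_eq]

theorem FFll_eq (F : ℝ → ℝ → ℝ) : FFll F = FF F := by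
  funext η l t
  unfold Pool.Agent.H24.EH.FFll FF
  rw [Bp_eq]

theorem FFg_eq (F : ℝ → ℝ → ℝ) : Pool.Agent.H24.EH.FFg F = FFg F := by
  funext η l t
  unfold Pool.Agent.H24.EH.FFg FFg
  rw [Bp_eq, B1_eq]

theorem FFlg_eq (F : ℝ → ℝ → ℝ) : FFlg F = FFg F := by
  funext η l t
  unfold Pool.Agent.H24.EH.FFlg FFg
  rw [Bp_eq, B1_eq]

theorem FFllg_eq (F : ℝ → ℝ → ℝ) : FFllg F = FFg F := by
  funext η l t
  unfold Pool.Agent.H24.EH.FFllg FFg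
  rw [Bp_eq, B1_eq]

theorem FFgg_eq (F G : ℝ → ℝ → ℝ) : Pool.Agent.H24.EH.FFgg F G = FFgg F G := by
  funext η l t
  unfold Pool.Agent.H24.EH.FFgg FFgg
  rw [Bp_eq, B1_eq, B2_eq]

/-- (P2) `FF` satisfies `FData` -/
theorem FF_data (h : FData F Fl Fg Fll Flg Fgg Fllg) {η : ℝ} (hη : 0 < η) :
    FData (Pool.Agent.H24.EH.FF F η) (FFl Fl η) (Pool.Agent.H24.EH.FFg Fg η) (FFll Fll η)
      (FFlg Flg η) (Pool.Agent.H24.EH.FFgg Fg Fgg η) (FFllg Fllg η) := by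
  rw [FF_eq, FFl_eq, FFg_eq, FFll_eq, FFlg_eq, FFgg_eq, FFllg_eq]
  exact h.ff hη

theorem Hf_eq (Fg : ℝ → ℝ → ℝ) (η : ℝ) : Hf Fg η = HF Fg η := by
  funext l t
  unfold Pool.Agent.H24.EH.Hf HF
  rw [FFg_eq]

theorem Pf_eq (Fl Fg Flg : ℝ → ℝ → ℝ) (η : ℝ) : Pf Fl Fg Flg η = PsiF Fl Fg Flg η := by
  funext l t
  unfold Pool.Agent.H24.EH.Pf PsiF
  rw [FFg_eq, FFl_eq, FFlg_eq]

theorem qf_eq (Fl Fg Fll Flg Fgg : ℝ → ℝ → ℝ) (η : ℝ) :
    qf Fl Fg Fll Flg Fgg η = qF Fl Fg Fll Flg Fgg η := by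
  funext l t
  unfold Pool.Agent.H24.EH.qf qF
  rw [FFg_eq, FFl_eq, FFll_eq, FFlg_eq, FFgg_eq]

theorem wf_eq (Fg Fll Flg Fgg : ℝ → ℝ → ℝ) (η : ℝ) :
    Pool.Agent.H24.EH.wf Fg Fll Flg Fgg η = wF Fg Fll Flg Fgg η := by
  funext l t
  rw [← D_ff]
  unfold Pool.Agent.H24.EH.wf D
  rw [FFll_eq, FFlg_eq, FFgg_eq]

/-! ### the truncation `G = Bp (η/4) ∘ y` -/

theorem contDiff_Bp {η : ℝ} (hη : 0 < η) : ContDiff ℝ 2 (Bp η) := by
  have h1 : deriv (Bp η) = Bp1 η := funext fun t => (Bp_hasDerivAt hη t).deriv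
  have h2 : deriv (Bp1 η) = Bp2 η := funext fun t => (Bp1_hasDerivAt hη t).deriv
  have h3 : ((1 : WithTop ℕ∞) + 1) = 2 := by norm_num
  have h4 : ((0 : WithTop ℕ∞) + 1) = 1 := by norm_num
  rw [← h3, contDiff_succ_iff_deriv]
  refine ⟨fun t => (Bp_hasDerivAt hη t).differentiableAt, by simp, ?_⟩
  rw [h1, ← h4, contDiff_succ_iff_deriv]
  refine ⟨fun t => (Bp1_hasDerivAt hη t).differentiableAt, by simp, ?_⟩
  rw [h2, contDiff_zero]
  exact Bp2_continuous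

/-- truncation of a level function -/
def tr (η : ℝ) (y : ℝ × ℝ → ℝ) (x : ℝ × ℝ) : ℝ := Bp (η / 4) (y x)

variable {y : ℝ × ℝ → ℝ} {η : ℝ}

theorem tr_contDiff (hy : YData y) (hη : 0 < η) : ContDiff ℝ 2 (tr η y) := by
  have hη4 : 0 < η / 4 := by linarith
  rw [contDiff_iff_contDiffAt]
  intro x
  rcases lt_or_ge (y x) (η / 4) with h | h
  · have h1 : tr η y =ᶠ[𝓝 x] fun _ => 2 * (η / 4) := by
      filter_upwards [hy.cont.continuousAt.eventually (gt_mem_nhds h)] with x' hx'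
      exact Bp_of_le hη4 hx'.le
    exact contDiffAt_const.congr_of_eventuallyEq h1
  · have h1 := hy.smooth x (lt_of_lt_of_le hη4 h)
    exact (contDiff_Bp hη4).contDiffAt.comp x (h1.of_le (by norm_num))

theorem tr_pos (hη : 0 < η) (x : ℝ × ℝ) : 0 < tr η y x := Bp_pos (by linarith) _

theorem tr_eventuallyEq (hy : YData y) (hη : 0 < η) {x : ℝ × ℝ} (hx : 3 * (η / 4) < y x) :
    tr η y =ᶠ[𝓝 x] y := by
  filter_upwards [hy.cont.continuousAt.eventually (lt_mem_nhds hx)] with x' hx'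
  exact Bp_of_ge (by linarith) hx'.le

theorem tr_le (hη : 0 < η) {x : ℝ × ℝ} (hx : y x ≤ 3 * (η / 4)) : tr η y x ≤ η := by
  have h1 := Bp_le (η := η / 4) (by linarith) (y x)
  rw [max_eq_right hx] at h1
  unfold tr
  linarith

theorem d1_congr {f g : ℝ × ℝ → ℝ} {x : ℝ × ℝ} (h : f =ᶠ[𝓝 x] g) : d1 f x = d1 g x := by
  unfold Pool.Agent.H23.EH.d1
  rw [h.fderiv_eq]

theorem d2_congr {f g : ℝ × ℝ → ℝ} {x : ℝ × ℝ} (h : f =ᶠ[𝓝 x] g) : d2 f x = d2 g x := by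
  unfold Pool.Agent.H23.EH.d2
  rw [h.fderiv_eq]

theorem d1_eventuallyEq {f g : ℝ × ℝ → ℝ} {x : ℝ × ℝ} (h : f =ᶠ[𝓝 x] g) : d1 f =ᶠ[𝓝 x] d1 g := by
  filter_upwards [eventually_eventually_nhds.2 h] with x' hx'
  exact d1_congr hx'

theorem d2_eventuallyEq {f g : ℝ × ℝ → ℝ} {x : ℝ × ℝ} (h : f =ᶠ[𝓝 x] g) : d2 f =ᶠ[𝓝 x] d2 g := by
  filter_upwards [eventually_eventually_nhds.2 h] with x' hx'
  exact d2_congr hx'

theorem Bp_tr (hη : 0 < η) (x : ℝ × ℝ) : Bp η (tr η y x) = Bp η (y x) := by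
  rcases le_or_gt (y x) (3 * (η / 4)) with h | h
  · rw [Bp_of_le hη (tr_le hη h), Bp_of_le hη (by linarith)]
  · unfold tr
    rw [Bp_of_ge (by linarith : (0 : ℝ) < η / 4) h.le]

/-- (A) the identity on a rectangle -/
theorem identity (h : FData F Fl Fg Fll Flg Fgg Fllg) (hy : YData y) (hη : 0 < η) {l₁ l₂ : ℝ}
    (hl : l₁ ≤ l₂) :
    En (Pool.Agent.H24.EH.FF F η) y l₁ l₂ = Th Fl Fg Flg η y l₂ - Th Fl Fg Flg η y l₁ +
      ∫ l in l₁..l₂, ∫ φ in (0 : ℝ)..2 * π, qf Fl Fg Fll Flg Fgg η l (y (l, φ)) := by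
  have hG := tr_contDiff hy hη
  have hper : ∀ l φ, tr η y (l, φ + 2 * π) = tr η y (l, φ) := by
    intro l φ
    unfold tr
    rw [hy.per]
  have hharm : ∀ x, η < tr η y x → d1 (d1 (tr η y)) x + d2 (d2 (tr η y)) x = 0 := by
    intro x hx
    have h1 : 3 * (η / 4) < y x := by
      by_contra hc
      exact absurd (tr_le hη (not_lt.1 hc)) (not_le.2 hx)
    have h2 := tr_eventuallyEq hy hη h1
    rw [d1_congr (d1_eventuallyEq h2), d2_congr (d2_eventuallyEq h2)]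
    exact hy.harm x (by linarith)
  have hid := h.ff_energy_id hη hG hper hl (fun l _ φ _ => tr_pos hη (l, φ))
    (fun l _ φ _ hg => hharm (l, φ) hg)
  -- energy
  have e1 : En (Pool.Agent.H24.EH.FF F η) y l₁ l₂ =
      ∫ l in l₁..l₂, ∫ φ in 0..2 * π, denF Fl Fg η (tr η y) (l, φ) := by
    unfold Pool.Agent.H24.EH.En
    have e0 : (fun x : ℝ × ℝ => Pool.Agent.H24.EH.FF F η x.1 (y x)) =
        fun x => FF F η x.1 (tr η y x) := by
      funext x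
      rw [FF_eq]
      unfold FF
      rw [Bp_tr hη]
    rw [e0]
    refine intervalIntegral.integral_congr fun l _ => ?_
    refine intervalIntegral.integral_congr fun φ _ => ?_
    have := (h.ff hη).den_eq (G := tr η y) (x := (l, φ))
      (hG.differentiable (by norm_num)).differentiableAt (tr_pos hη _)
    exact this.symm
  -- `q`
  have e2 : (∫ l in l₁..l₂, ∫ φ in 0..2 * π, qF Fl Fg Fll Flg Fgg η l (tr η y (l, φ))) =
      ∫ l in l₁..l₂, ∫ φ in (0 : ℝ)..2 * π, qf Fl Fg Fll Flg Fgg η l (y (l, φ)) := by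
    refine intervalIntegral.integral_congr fun l _ => ?_
    refine intervalIntegral.integral_congr fun φ _ => ?_
    rw [qf_eq]
    rcases le_or_gt (y (l, φ)) (3 * (η / 4)) with hc | hc
    · rw [qF_of_le hη l (tr_le hη hc), qF_of_le hη l (by linarith)]
    · unfold tr
      rw [Bp_of_ge (by linarith : (0 : ℝ) < η / 4) hc.le]
  -- boundary
  have e3 : ∀ l, ThetaF Fl Fg Flg η (tr η y) l = Th Fl Fg Flg η y l := by
    intro l
    unfold ThetaF Pool.Agent.H24.EH.Th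
    refine intervalIntegral.integral_congr fun φ _ => ?_
    rw [Hf_eq, Pf_eq]
    rcases le_or_gt (y (l, φ)) (3 * (η / 4)) with hc | hc
    · rw [HF_of_le hη l (tr_le hη hc), HF_of_le hη l (by linarith : y (l, φ) ≤ η),
        PsiF_of_le hη l (tr_le hη hc), PsiF_of_le hη l (by linarith : y (l, φ) ≤ η)]
      ring
    · have h2 := tr_eventuallyEq hy hη hc
      rw [d1_congr h2, h2.eq_of_nhds]
  rw [e1, hid, e2, e3, e3]
  ring

end

end Pool.Agent.H15.EH
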