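import Pool.Agent.H15.EH.Q
import Pool.Agent.H23.EH.E1

/-!
# EHP: the rectangle identity for a `C²` function `G > 0` in terms of `H, Psi, q` (from `FData`)

Bridge between `Pool.Agent.H15.EH.Q` and `Pool.Agent.H23.EH.E1`.
-/

set_option autoImplicit false

open MeasureTheory Set Filter Topology intervalIntegral
open scoped Real Interval

noncomputable section

namespace Pool.Agent.H15.EH

open Pool.Agent.H23.EH

/-- a function with continuous partial derivatives on `g > 0` is `C¹` there -/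
theorem contDiffOn_of_partials {f fl fg : ℝ → ℝ → ℝ}
    (h1 : ∀ l g, 0 < g → HasDerivAt (fun x => f x g) (fl l g) l)
    (h2 : ∀ l g, 0 < g → HasDerivAt (f l) (fg l g) g)
    (c1 : ContinuousOn (fun x : ℝ × ℝ => fl x.1 x.2) U)
    (c2 : ContinuousOn (fun x : ℝ × ℝ => fg x.1 x.2) U) :
    ContDiffOn ℝ 1 (fun x : ℝ × ℝ => f x.1 x.2) U := by
  have hd := hasFDerivAt_of_partials h1 h2 c1 c2
  have h0 : ((0 : WithTop ℕ∞) + 1) = 1 := by norm_num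
  rw [← h0, contDiffOn_succ_iff_fderiv_of_isOpen isOpen_U]
  refine ⟨fun x hx => (hd x hx).differentiableAt.differentiableWithinAt, by simp, ?_⟩
  rw [contDiffOn_zero]
  have hc : ContinuousOn (fun x : ℝ × ℝ => fl x.1 x.2 • ContinuousLinearMap.fst ℝ ℝ ℝ +
      fg x.1 x.2 • ContinuousLinearMap.snd ℝ ℝ ℝ) U :=
    (c1.smul continuousOn_const).add (c2.smul continuousOn_const)
  exact hc.congr fun x hx => (hd x hx).fderiv

theorem d1_of_partials {f fl fg : ℝ → ℝ → ℝ}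
    (h1 : ∀ l g, 0 < g → HasDerivAt (fun x => f x g) (fl l g) l)
    (h2 : ∀ l g, 0 < g → HasDerivAt (f l) (fg l g) g)
    (c1 : ContinuousOn (fun x : ℝ × ℝ => fl x.1 x.2) U)
    (c2 : ContinuousOn (fun x : ℝ × ℝ => fg x.1 x.2) U) (x : ℝ × ℝ) (hx : 0 < x.2) :
    d1 (fun x : ℝ × ℝ => f x.1 x.2) x = fl x.1 x.2 := by
  unfold d1
  rw [(hasFDerivAt_of_partials h1 h2 c1 c2 x hx).fderiv]
  simp

theorem d2_of_partials {f fl fg : ℝ → ℝ → ℝ}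
    (h1 : ∀ l g, 0 < g → HasDerivAt (fun x => f x g) (fl l g) l)
    (h2 : ∀ l g, 0 < g → HasDerivAt (f l) (fg l g) g)
    (c1 : ContinuousOn (fun x : ℝ × ℝ => fl x.1 x.2) U)
    (c2 : ContinuousOn (fun x : ℝ × ℝ => fg x.1 x.2) U) (x : ℝ × ℝ) (hx : 0 < x.2) :
    d2 (fun x : ℝ × ℝ => f x.1 x.2) x = fg x.1 x.2 := by
  unfold d2
  rw [(hasFDerivAt_of_partials h1 h2 c1 c2 x hx).fderiv]
  simp

variable {F Fl Fg Fll Flg Fgg Fllg : ℝ → ℝ → ℝ} {e : ℝ}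

/-- the boundary functional `Theta(l) = ∫ (H(l,G) G_l + Psi(l,G)) dφ` -/
def Theta (Fl Fg Flg : ℝ → ℝ → ℝ) (e : ℝ) (G : ℝ × ℝ → ℝ) (l : ℝ) : ℝ :=
  ∫ φ in 0..2 * π, (H Fg e l (G (l, φ)) * d1 G (l, φ) + Psi Fl Fg Flg e l (G (l, φ)))

/-- the energy density of `u = F(l, G(l,φ))` -/
def den (Fl Fg : ℝ → ℝ → ℝ) (G : ℝ × ℝ → ℝ) (x : ℝ × ℝ) : ℝ :=
  (Fl x.1 (G x) + Fg x.1 (G x) * d1 G x) ^ 2 + (Fg x.1 (G x) * d2 G x) ^ 2

theorem FData.F_contDiffOn (h : FData F Fl Fg Fll Flg Fgg Fllg) :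
    ContDiffOn ℝ 1 (fun x : ℝ × ℝ => F x.1 x.2) U :=
  contDiffOn_of_partials h.dl h.dg h.cl h.cg

theorem FData.H_contDiffOn (h : FData F Fl Fg Fll Flg Fgg Fllg) (he : 0 < e) :
    ContDiffOn ℝ 1 (fun x : ℝ × ℝ => H Fg e x.1 x.2) U :=
  contDiffOn_of_partials (f := H Fg e) (fl := Hl Fg Flg e) (fg := fun l g => Fg l g ^ 2)
    (fun l _ hg => h.H_l he l hg) (fun l _ hg => h.H_g he l hg) (h.cont_Hl he) h.cont_Fg2

theorem FData.Psi_contDiffOn (h : FData F Fl Fg Fll Flg Fgg Fllg) (he : 0 < e) :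
    ContDiffOn ℝ 1 (fun x : ℝ × ℝ => Psi Fl Fg Flg e x.1 x.2) U :=
  contDiffOn_of_partials (f := Psi Fl Fg Flg e)
    (fl := fun l g => Fl l g ^ 2 - q Fl Fg Fll Flg Fgg e l g) (fg := W Fl Fg Flg e)
    (fun l _ hg => h.Psi_l he l hg) (fun l _ hg => h.Psi_g he l hg)
    ((h.cl.pow 2).sub (h.cont_q he)) (h.cont_W he)

theorem FData.d1_F (h : FData F Fl Fg Fll Flg Fgg Fllg) (x : ℝ × ℝ) (hx : 0 < x.2) :
    d1 (fun x : ℝ × ℝ => F x.1 x.2) x = Fl x.1 x.2 :=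
  d1_of_partials h.dl h.dg h.cl h.cg x hx

theorem FData.d2_F (h : FData F Fl Fg Fll Flg Fgg Fllg) (x : ℝ × ℝ) (hx : 0 < x.2) :
    d2 (fun x : ℝ × ℝ => F x.1 x.2) x = Fg x.1 x.2 :=
  d2_of_partials h.dl h.dg h.cl h.cg x hx

theorem FData.d1_H (h : FData F Fl Fg Fll Flg Fgg Fllg) (he : 0 < e) (x : ℝ × ℝ) (hx : 0 < x.2) :
    d1 (fun x : ℝ × ℝ => H Fg e x.1 x.2) x = Hl Fg Flg e x.1 x.2 :=
  d1_of_partials (f := H Fg e) (fl := Hl Fg Flg e) (fg := fun l g => Fg l g ^ 2)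
    (fun l _ hg => h.H_l he l hg) (fun l _ hg => h.H_g he l hg) (h.cont_Hl he) h.cont_Fg2 x hx

theorem FData.d2_H (h : FData F Fl Fg Fll Flg Fgg Fllg) (he : 0 < e) (x : ℝ × ℝ) (hx : 0 < x.2) :
    d2 (fun x : ℝ × ℝ => H Fg e x.1 x.2) x = Fg x.1 x.2 ^ 2 :=
  d2_of_partials (f := H Fg e) (fl := Hl Fg Flg e) (fg := fun l g => Fg l g ^ 2)
    (fun l _ hg => h.H_l he l hg) (fun l _ hg => h.H_g he l hg) (h.cont_Hl he) h.cont_Fg2 x hx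

theorem FData.d1_Psi (h : FData F Fl Fg Fll Flg Fgg Fllg) (he : 0 < e) (x : ℝ × ℝ)
    (hx : 0 < x.2) : d1 (fun x : ℝ × ℝ => Psi Fl Fg Flg e x.1 x.2) x =
      Fl x.1 x.2 ^ 2 - q Fl Fg Fll Flg Fgg e x.1 x.2 :=
  d1_of_partials (f := Psi Fl Fg Flg e)
    (fl := fun l g => Fl l g ^ 2 - q Fl Fg Fll Flg Fgg e l g) (fg := W Fl Fg Flg e)
    (fun l _ hg => h.Psi_l he l hg) (fun l _ hg => h.Psi_g he l hg)
    ((h.cl.pow 2).sub (h.cont_q he)) (h.cont_W he) x hx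

theorem FData.d2_Psi (h : FData F Fl Fg Fll Flg Fgg Fllg) (he : 0 < e) (x : ℝ × ℝ)
    (hx : 0 < x.2) : d2 (fun x : ℝ × ℝ => Psi Fl Fg Flg e x.1 x.2) x =
      2 * Fl x.1 x.2 * Fg x.1 x.2 - Hl Fg Flg e x.1 x.2 :=
  d2_of_partials (f := Psi Fl Fg Flg e)
    (fl := fun l g => Fl l g ^ 2 - q Fl Fg Fll Flg Fgg e l g) (fg := W Fl Fg Flg e)
    (fun l _ hg => h.Psi_l he l hg) (fun l _ hg => h.Psi_g he l hg)
    ((h.cl.pow 2).sub (h.cont_q he)) (h.cont_W he) x hx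

/-- derivative of `u = F(l, G)` in `l` -/
theorem FData.d1_u (h : FData F Fl Fg Fll Flg Fgg Fllg) {G : ℝ × ℝ → ℝ} {x : ℝ × ℝ}
    (hG : DifferentiableAt ℝ G x) (hx : 0 < G x) :
    d1 (fun y => F y.1 (G y)) x = Fl x.1 (G x) + Fg x.1 (G x) * d1 G x := by
  have h1 : DifferentiableAt ℝ (fun x : ℝ × ℝ => F x.1 x.2) (gp G x) :=
    (hasFDerivAt_of_partials h.dl h.dg h.cl h.cg (gp G x) hx).differentiableAt
  have h2 := d1_comp_gp hG h1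
  rw [h.d1_F (gp G x) hx, h.d2_F (gp G x) hx] at h2
  exact h2

/-- derivative of `u = F(l, G)` in `φ` -/
theorem FData.d2_u (h : FData F Fl Fg Fll Flg Fgg Fllg) {G : ℝ × ℝ → ℝ} {x : ℝ × ℝ}
    (hG : DifferentiableAt ℝ G x) (hx : 0 < G x) :
    d2 (fun y => F y.1 (G y)) x = Fg x.1 (G x) * d2 G x := by
  have h1 : DifferentiableAt ℝ (fun x : ℝ × ℝ => F x.1 x.2) (gp G x) :=
    (hasFDerivAt_of_partials h.dl h.dg h.cl h.cg (gp G x) hx).differentiableAt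
  have h2 := d2_comp_gp hG h1
  rw [h.d2_F (gp G x) hx] at h2
  exact h2

theorem FData.den_eq (h : FData F Fl Fg Fll Flg Fgg Fllg) {G : ℝ × ℝ → ℝ} {x : ℝ × ℝ}
    (hG : DifferentiableAt ℝ G x) (hx : 0 < G x) :
    den Fl Fg G x = d1 (fun y => F y.1 (G y)) x ^ 2 + d2 (fun y => F y.1 (G y)) x ^ 2 := by
  rw [h.d1_u hG hx, h.d2_u hG hx]
  rfl

/-- **the energy identity on `[l₁,l₂] × [0,2π]`** -/
theorem FData.energy_id (h : FData F Fl Fg Fll Flg Fgg Fllg) (he : 0 < e) {G : ℝ × ℝ → ℝ}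
    (hG : ContDiff ℝ 2 G) (hper : ∀ l φ, G (l, φ + 2 * π) = G (l, φ)) {l₁ l₂ : ℝ} (hl : l₁ ≤ l₂)
    (hpos : ∀ l ∈ Icc l₁ l₂, ∀ φ ∈ Icc 0 (2 * π), 0 < G (l, φ)) :
    (∫ l in l₁..l₂, ∫ φ in 0..2 * π, (den Fl Fg G (l, φ) +
        H Fg e l (G (l, φ)) * (d1 (d1 G) (l, φ) + d2 (d2 G) (l, φ)))) =
      (∫ l in l₁..l₂, ∫ φ in 0..2 * π, q Fl Fg Fll Flg Fgg e l (G (l, φ))) +
      (Theta Fl Fg Flg e G l₂ - Theta Fl Fg Flg e G l₁) := by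
  have hpi : (0 : ℝ) ≤ 2 * π := by positivity
  have hm := energy_rect (F := fun x : ℝ × ℝ => F x.1 x.2) (H := fun x : ℝ × ℝ => H Fg e x.1 x.2)
    (Ψ := fun x : ℝ × ℝ => Psi Fl Fg Flg e x.1 x.2) hG hper isOpen_U h.F_contDiffOn
    (h.H_contDiffOn he) (h.Psi_contDiffOn he)
    (fun y hy => by rw [h.d2_H he y hy, h.d2_F y hy])
    (fun y hy => by rw [h.d2_Psi he y hy, h.d1_F y hy, h.d2_F y hy, h.d1_H he y hy]) hl hpos
  have e1 : (∫ l in l₁..l₂, ∫ φ in 0..2 * π, (den Fl Fg G (l, φ) +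
        H Fg e l (G (l, φ)) * (d1 (d1 G) (l, φ) + d2 (d2 G) (l, φ)))) =
      (∫ l in l₁..l₂, ∫ φ in 0..2 * π,
        (d1 (fun y => F (gp G y).1 (gp G y).2) (l, φ) ^ 2 +
          d2 (fun y => F (gp G y).1 (gp G y).2) (l, φ) ^ 2 +
        H Fg e (gp G (l, φ)).1 (gp G (l, φ)).2 * (d1 (d1 G) (l, φ) + d2 (d2 G) (l, φ)))) := by
    refine intervalIntegral.integral_congr fun l hl' => ?_
    refine intervalIntegral.integral_congr fun φ hφ => ?_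
    rw [uIcc_of_le hl] at hl'
    rw [uIcc_of_le hpi] at hφ
    have hGd : DifferentiableAt ℝ G (l, φ) :=
      (hG.differentiable (by norm_num)).differentiableAt
    have := h.den_eq hGd (hpos l hl' φ hφ)
    simp only [gp]
    rw [this]
  have e2 : (∫ l in l₁..l₂, ∫ φ in 0..2 * π, q Fl Fg Fll Flg Fgg e l (G (l, φ))) =
      ∫ l in l₁..l₂, ∫ φ in 0..2 * π, (d1 (fun x : ℝ × ℝ => F x.1 x.2) (gp G (l, φ)) ^ 2 -
        d1 (fun x : ℝ × ℝ => Psi Fl Fg Flg e x.1 x.2) (gp G (l, φ))) := by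
    refine intervalIntegral.integral_congr fun l hl' => ?_
    refine intervalIntegral.integral_congr fun φ hφ => ?_
    rw [uIcc_of_le hl] at hl'
    rw [uIcc_of_le hpi] at hφ
    have hp : 0 < (gp G (l, φ)).2 := hpos l hl' φ hφ
    change q Fl Fg Fll Flg Fgg e l (G (l, φ)) =
      d1 (fun x : ℝ × ℝ => F x.1 x.2) (gp G (l, φ)) ^ 2 -
        d1 (fun x : ℝ × ℝ => Psi Fl Fg Flg e x.1 x.2) (gp G (l, φ))
    rw [h.d1_F _ hp, h.d1_Psi he _ hp]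
    simp only [gp]
    ring
  rw [e1, e2]
  exact hm

/-- continuity of the energy density -/
theorem FData.den_cont (h : FData F Fl Fg Fll Flg Fgg Fllg) {G : ℝ × ℝ → ℝ}
    (hG : ContDiff ℝ 2 G) {S : Set (ℝ × ℝ)} (hpos : ∀ x ∈ S, 0 < G x) :
    ContinuousOn (den Fl Fg G) S := by
  have hGf : ContDiff ℝ 1 (fderiv ℝ G) := hG.fderiv_right (by norm_num)
  have hG1 : Continuous (d1 G) := (hGf.clm_apply contDiff_const).continuous
  have hG2 : Continuous (d2 G) := (hGf.clm_apply contDiff_const).continuous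
  have hmap : ContinuousOn (fun x : ℝ × ℝ => ((x.1, G x) : ℝ × ℝ)) S :=
    (continuous_fst.prodMk hG.continuous).continuousOn
  have c1 : ContinuousOn (fun x : ℝ × ℝ => Fl x.1 (G x)) S := h.cl.comp hmap hpos
  have c2 : ContinuousOn (fun x : ℝ × ℝ => Fg x.1 (G x)) S := h.cg.comp hmap hpos
  exact ((c1.add (c2.mul hG1.continuousOn)).pow 2).add ((c2.mul hG2.continuousOn).pow 2)

/-- **the energy inequality for a subharmonic `G ≥ e`** -/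
theorem FData.energy_le (h : FData F Fl Fg Fll Flg Fgg Fllg) (he : 0 < e) {G : ℝ × ℝ → ℝ}
    (hG : ContDiff ℝ 2 G) (hper : ∀ l φ, G (l, φ + 2 * π) = G (l, φ)) {l₁ l₂ : ℝ} (hl : l₁ ≤ l₂)
    (hpos : ∀ l ∈ Icc l₁ l₂, ∀ φ ∈ Icc 0 (2 * π), 0 < G (l, φ))
    (hsub : ∀ l ∈ Icc l₁ l₂, ∀ φ ∈ Icc 0 (2 * π),
      0 ≤ H Fg e l (G (l, φ)) * (d1 (d1 G) (l, φ) + d2 (d2 G) (l, φ))) :
    (∫ l in l₁..l₂, ∫ φ in 0..2 * π, den Fl Fg G (l, φ)) ≤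
      (∫ l in l₁..l₂, ∫ φ in 0..2 * π, q Fl Fg Fll Flg Fgg e l (G (l, φ))) +
      (Theta Fl Fg Flg e G l₂ - Theta Fl Fg Flg e G l₁) := by
  rw [← h.energy_id he hG hper hl hpos]
  have hpi : (0 : ℝ) ≤ 2 * π := by positivity
  have hGf : ContDiff ℝ 1 (fderiv ℝ G) := hG.fderiv_right (by norm_num)
  have hG1 : ContDiff ℝ 1 (d1 G) := hGf.clm_apply contDiff_const
  have hG2 : ContDiff ℝ 1 (d2 G) := hGf.clm_apply contDiff_const
  have hGG1 : Continuous (d1 (d1 G)) :=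
    (hG1.continuous_fderiv one_ne_zero).clm_apply continuous_const
  have hGG2 : Continuous (d2 (d2 G)) :=
    (hG2.continuous_fderiv one_ne_zero).clm_apply continuous_const
  have hR : ∀ x ∈ Icc l₁ l₂ ×ˢ Icc 0 (2 * π), 0 < G x := by
    rintro ⟨l, φ⟩ ⟨h1, h2⟩
    exact hpos l h1 φ h2
  have hc1 : ContinuousOn (den Fl Fg G) (Icc l₁ l₂ ×ˢ Icc 0 (2 * π)) := h.den_cont hG hR
  have hmap : ContinuousOn (fun x : ℝ × ℝ => ((x.1, G x) : ℝ × ℝ)) (Icc l₁ l₂ ×ˢ Icc 0 (2 * π)) :=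
    (continuous_fst.prodMk hG.continuous).continuousOn
  have hHc : ContinuousOn (fun x : ℝ × ℝ => H Fg e x.1 (G x)) (Icc l₁ l₂ ×ˢ Icc 0 (2 * π)) :=
    (h.cont_H he).comp hmap hR
  have hc2 : ContinuousOn (fun x => den Fl Fg G x + H Fg e x.1 (G x) *
      (d1 (d1 G) x + d2 (d2 G) x)) (Icc l₁ l₂ ×ˢ Icc 0 (2 * π)) :=
    hc1.add (hHc.mul (hGG1.add hGG2).continuousOn)
  have hsec : ∀ l ∈ Icc l₁ l₂, ContinuousOn (fun φ : ℝ => ((l, φ) : ℝ × ℝ)) [[0, 2 * π]] :=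
    fun l _ => by fun_prop
  have hmem : ∀ l ∈ Icc l₁ l₂, MapsTo (fun φ : ℝ => ((l, φ) : ℝ × ℝ)) [[0, 2 * π]]
      (Icc l₁ l₂ ×ˢ Icc 0 (2 * π)) := by
    intro l hl' φ hφ
    rw [uIcc_of_le hpi] at hφ
    exact ⟨hl', hφ⟩
  refine intervalIntegral.integral_mono_on hl (intervalIntegrable_integral hl hpi hc1)
    (intervalIntegrable_integral hl hpi hc2) fun l hl' => ?_
  refine intervalIntegral.integral_mono_on hpi (hc1.comp (hsec l hl') (hmem l hl')).intervalIntegrable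
    (hc2.comp (hsec l hl') (hmem l hl')).intervalIntegrable fun φ hφ => ?_
  exact le_add_of_nonneg_right (hsub l hl' φ hφ)

end Pool.Agent.H15.EH
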